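import Pool.Agent.Lib.PolyTree.Lists

/-! # GA (machine side): a prime number in polynomial time -/

namespace GAP

open Pool.Agent.Lib.PolyTree

/-- trial division -/
def isPrimeB (p : ℕ) : Bool :=
  decide (2 ≤ p) && (List.range p).all fun d => decide (d < 2) || decide (p % d ≠ 0)

theorem isPrimeB_iff (p : ℕ) : isPrimeB p = true ↔ p.Prime := by
  unfold isPrimeB
  simp only [Bool.and_eq_true, decide_eq_true_eq, List.all_eq_true, List.mem_range,
    Bool.or_eq_true]
  constructor
  · rintro ⟨h1, h2⟩
    rw [Nat.prime_def]
    refine ⟨h1, fun m hm => ?_⟩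
    by_contra hne
    push Not at hne
    have hle := Nat.le_of_dvd (by omega) hm
    have h0 : m ≠ 0 := by
      rintro rfl
      rw [zero_dvd_iff] at hm
      omega
    rcases h2 m (by omega) with h | h
    · omega
    · exact h (Nat.dvd_iff_mod_eq_zero.1 hm)
  · intro hp
    refine ⟨hp.two_le, fun d hd => ?_⟩
    by_cases h : d < 2
    · exact Or.inl h
    · right
      intro h0
      have := (Nat.dvd_prime hp).1 (Nat.dvd_of_mod_eq_zero h0)
      omega

/-- the smallest prime number above `B`, found below `2 B + 3` -/
def primeAbove (B : ℕ) : ℕ :=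
  ((List.range (2 * B + 3)).find? fun p => decide (B < p) && isPrimeB p).getD 2

theorem primeAbove_spec (B : ℕ) : (primeAbove B).Prime ∧ B < primeAbove B ∧
    primeAbove B ≤ 2 * B + 2 := by
  unfold primeAbove
  cases h : (List.range (2 * B + 3)).find? fun p => decide (B < p) && isPrimeB p with
  | none =>
    exfalso
    rw [List.find?_eq_none] at h
    obtain ⟨p, hp, h1, h2⟩ := Nat.exists_prime_lt_and_le_two_mul (B + 1) (by omega)
    have := h p (List.mem_range.2 (by omega))
    apply this
    rw [Bool.and_eq_true, decide_eq_true_eq, isPrimeB_iff]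
    exact ⟨by omega, hp⟩
  | some p =>
    have h1 := List.find?_some h
    have h2 := List.mem_range.1 (List.mem_of_find?_eq_some h)
    rw [Bool.and_eq_true, decide_eq_true_eq, isPrimeB_iff] at h1
    simp only [Option.getD_some]
    exact ⟨h1.2, h1.1, by omega⟩

@[fun_prop]
theorem PF_isPrimeB {α : Type} [TEnc α] {f : α → ℕ} (hf : PF f) : PF fun a => isPrimeB (f a) := by
  unfold isPrimeB
  fun_prop

@[fun_prop]
theorem PF_primeAbove {α : Type} [TEnc α] {f : α → ℕ} (hf : PF f) :
    PF fun a => primeAbove (f a) := by
  unfold primeAbove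
  fun_prop

end GAP
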