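import Pool.Agent.Lib.GAP.Rk

/-! # GA (program side): the algorithm `RANK` (local search) as total functions on lists of naturals

`F_q`, `q` a prime, entries are naturals modulo `q`.  A linear matrix with `k` parts of variables has a
constant term and `k` lists of coefficient matrices (head = top part). -/

namespace GAP

/-- an affine matrix with parts of variables -/
structure LM where
  /-- number of rows -/
  N : ℕ
  /-- number of columns -/
  N' : ℕ
  /-- constant term -/
  A0 : Mt
  /-- coefficient matrices, one list for every part, head = top part -/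
  P : List (List Mt)

/-- evaluation of the top part at matrices of size `d`; row `(i, a)` has index `i * d + a` -/
def evalAt (q : ℕ) (T : LM) (d : ℕ) (Ms : List Mt) : LM where
  N := T.N * d
  N' := T.N' * d
  A0 := tab (T.N * d) (T.N' * d) fun i j =>
    ((if i % d = j % d then ent T.A0 (i / d) (j / d) else 0) +
      ((List.range (T.P.headD []).length).map fun l =>
        ent ((T.P.headD []).getD l []) (i / d) (j / d) * ent (Ms.getD l []) (i % d) (j % d)).sum) % q
  P := T.P.tail.map fun L => L.map fun A =>
    tab (T.N * d) (T.N' * d) fun i j => if i % d = j % d then ent A (i / d) (j / d) else 0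

/-- append `n'` constant columns -/
def ext (T : LM) (n' : ℕ) (g : ℕ → ℕ → ℕ) : LM where
  N := T.N
  N' := T.N' + n'
  A0 := tab T.N (T.N' + n') fun i j => if j < T.N' then ent T.A0 i j else g i (j - T.N')
  P := T.P.map fun L => L.map fun A =>
    tab T.N (T.N' + n') fun i j => if j < T.N' then ent A i j else 0

/-- `D` diagonal copies; row `(c, i)` has index `c * N + i` -/
def copiesL (T : LM) (D : ℕ) : LM where
  N := D * T.N
  N' := D * T.N'
  A0 := tab (D * T.N) (D * T.N') fun i j =>
    if i / T.N = j / T.N' then ent T.A0 (i % T.N) (j % T.N') else 0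
  P := T.P.map fun L => L.map fun A => tab (D * T.N) (D * T.N') fun i j =>
    if i / T.N = j / T.N' then ent A (i % T.N) (j % T.N') else 0

/-- `P_b`: the top part is evaluated at `Ms`, and the constant columns `(j, i')`, `j < b` (index
`j * N + i'`) are appended: entry `L j a` in row `(i, a)` if `i = i'` -/
def PBl (q : ℕ) (T : LM) (D : ℕ) (Ms : List Mt) (L : Mt) (b : ℕ) : LM :=
  ext (evalAt q T D Ms) (b * T.N) fun i j => if i / D = j % T.N then ent L (j / T.N) (i % D) else 0

/-- `D` copies of `P_b` and `N` constant columns: entry `1` in row `(c, (i, a))` and column `i'` if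
`a = c` and `i = i'` -/
def PHl (q : ℕ) (T : LM) (D : ℕ) (Ms : List Mt) (L : Mt) (b : ℕ) : LM :=
  ext (copiesL (PBl q T D Ms L b) D) T.N fun i j =>
    if i % (T.N * D) % D = i / (T.N * D) ∧ i % (T.N * D) / D = j then 1 else 0

/-- the state of the search: matrices and functionals -/
abbrev St := List Mt × Mt

section Level

variable (q : ℕ) (R : LM → ℕ)

/-- the potential -/
def pot (T : LM) (D B : ℕ) (st : St) : ℕ :=
  ((List.range (B + 1)).map fun b =>
    R (PBl q T D st.1 st.2 b) + R (PHl q T D st.1 st.2 b)).sum

/-- change one entry of one matrix -/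
def updMs (D : ℕ) (Ms : List Mt) (l a a' t : ℕ) : List Mt :=
  (List.range Ms.length).map fun l' => tab D D fun i j =>
    if l' = l ∧ i = a ∧ j = a' then t else ent (Ms.getD l' []) i j

/-- change one entry of one functional -/
def updLs (D B : ℕ) (L : Mt) (l a t : ℕ) : Mt :=
  tab B D fun i j => if i = l ∧ j = a then t else ent L i j

/-- all states which differ in one entry -/
def cands (D B : ℕ) (st : St) : List St :=
  ((List.range st.1.length).flatMap fun l => (List.range D).flatMap fun a =>
    (List.range D).flatMap fun a' => (List.range q).map fun t => (updMs D st.1 l a a' t, st.2)) ++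
  ((List.range B).flatMap fun i => (List.range D).flatMap fun a =>
    (List.range q).map fun t => (st.1, updLs D B st.2 i a t))

/-- one step of the search -/
def lsStep (T : LM) (D B : ℕ) (st : St) : St :=
  ((cands q D B st).find? fun st' => decide (pot q R T D B st < pot q R T D B st')).getD st

/-- the initial state -/
def st0 (T : LM) (D B : ℕ) : St :=
  ((T.P.headD []).map fun _ => tab D D fun _ _ => 0, tab B D fun _ _ => 0)

/-- an upper bound for the potential -/
def potMax (N D : ℕ) : ℕ := (N ^ 2 + 1) * (N * D + D * (N * D))

/-- the size of the matrices -/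
def dim (p N : ℕ) : ℕ := p ^ (Nat.log p (N ^ 3) + 1)

/-- the final state -/
def lsRun (T : LM) (D : ℕ) : St :=
  (lsStep q R T D (T.N ^ 2))^[potMax T.N D + 1] (st0 T D (T.N ^ 2))

/-- the rank routine one level up -/
def rankLevel (p : ℕ) (T : LM) : ℕ :=
  (R (evalAt q T (dim p T.N) (lsRun q R T (dim p T.N)).1) + dim p T.N - 1) / dim p T.N

end Level

/-- the rank routine; `ps` is the list of the bases of the sizes, one for every part -/
def RANK (q : ℕ) : List ℕ → LM → ℕ
  | [] => fun T => rk q T.N' T.A0
  | p :: ps => rankLevel q (RANK q ps) p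

/-- the lower bound for the prime `q`, for `N` rows -/
def bnd : List ℕ → ℕ → ℕ
  | [], _ => 2
  | p :: ps, N => potMax N (dim p N) + 3 + bnd ps (N * dim p N) + bnd ps (dim p N * (N * dim p N))

end GAP
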