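import Pool.Agent.Lib.GAP.Pow
import Pool.Agent.Lib.GAP.Prog

/-! # GA (machine side): the local search program runs in polynomial time -/

namespace GAP

open Pool.Agent.Lib.PolyTree

set_option linter.unusedSectionVars false

/-- the tuple of a partitioned matrix -/
def LM.tup (T : LM) : ℕ × ℕ × Mt × List (List Mt) := (T.N, T.N', T.A0, T.P)

instance : TEnc LM := ⟨fun T => enc T.tup, by
  rintro ⟨a, b, c, d⟩ ⟨a', b', c', d'⟩ h
  have := TEnc.inj h
  simp only [LM.tup, Prod.mk.injEq] at this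
  obtain ⟨h1, h2, h3, h4⟩ := this
  subst h1; subst h2; subst h3; subst h4; rfl⟩

theorem tsz_LM (T : LM) : tsz T = tsz T.N + tsz T.N' + tsz T.A0 + tsz T.P + 3 := by
  have : tsz T = tsz T.tup := rfl
  rw [this]
  simp only [LM.tup, tsz_pair]
  omega

theorem tsz_mat_le {A : Mt} {m n b : ℕ} (h1 : A.length ≤ m) (h2 : ∀ r ∈ A, r.length ≤ n)
    (h3 : ∀ r ∈ A, ∀ x ∈ r, x ≤ b) : tsz A ≤ m * ((n * (2 * b + 2) + 1) + 1) + 1 := by
  refine tsz_list_le h1 fun r hr => ?_
  refine (tsz_list_le (b := 2 * b + 1) (h2 r hr) fun x hx => ?_).trans ?_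
  · rw [tsz_nat]
    have := h3 r hr x hx
    omega
  · exact le_rfl

theorem le_tsz_of_mem {l : List ℕ} {x : ℕ} (h : x ∈ l) : x ≤ tsz l := by
  have := tsz_mem h
  rw [tsz_nat] at this
  omega

theorem rkStep_elim (q : ℕ) (s : ℕ × Mt) : rkStep q s =
    (s.2.find? (fun r => decide (r.headD 0 % q ≠ 0))).elim (s.1, s.2.map fun r => r.tail)
      (fun p => (s.1 + 1, s.2.map fun r =>
        List.zipWith (fun x y => (p.headD 0 * x + (q - r.headD 0 % q) * y) % q) r.tail
          p.tail)) := by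
  unfold rkStep
  cases s.2.find? (fun r => decide (r.headD 0 % q ≠ 0)) <;> rfl

theorem rk_inv (q : ℕ) (A : Mt) (t : ℕ) :
    ((rkStep (q + 1))^[t] (0, A)).1 ≤ t ∧ ((rkStep (q + 1))^[t] (0, A)).2.length = A.length ∧
    ∀ r ∈ ((rkStep (q + 1))^[t] (0, A)).2, r.length ≤ tsz A ∧ ∀ x ∈ r, x ≤ tsz A + q := by
  induction t with
  | zero =>
    refine ⟨le_rfl, rfl, fun r hr => ?_⟩
    have h1 := tsz_mem hr
    have h2 := length_lt_tsz r
    refine ⟨?_, fun x hx => ?_⟩
    · simp only [Function.iterate_zero, id_eq] at h1; omega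
    · have h3 := le_tsz_of_mem hx
      simp only [Function.iterate_zero, id_eq] at h1; omega
  | succ t ih =>
    rw [Function.iterate_succ_apply']
    generalize (rkStep (q + 1))^[t] (0, A) = s at ih
    obtain ⟨h1, h2, h3⟩ := ih
    rw [rkStep_elim]
    cases hf : s.2.find? (fun r => decide (r.headD 0 % (q + 1) ≠ 0)) with
    | none =>
      simp only [Option.elim_none, List.length_map, List.mem_map]
      refine ⟨by omega, h2, ?_⟩
      rintro r ⟨r', hr', rfl⟩
      obtain ⟨g1, g2⟩ := h3 r' hr'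
      exact ⟨by rw [List.length_tail]; omega, fun x hx => g2 x (List.mem_of_mem_tail hx)⟩
    | some p =>
      simp only [Option.elim_some, List.length_map, List.mem_map]
      refine ⟨by omega, h2, ?_⟩
      rintro r ⟨r', hr', rfl⟩
      obtain ⟨g1, g2⟩ := h3 r' hr'
      refine ⟨by rw [List.length_zipWith, List.length_tail]; omega, fun x hx => ?_⟩
      rw [List.mem_iff_getElem] at hx
      obtain ⟨i, hi, rfl⟩ := hx
      rw [List.getElem_zipWith]
      have := Nat.mod_lt (p.headD 0 * r'.tail[i]'(by simp at hi ⊢; omega) +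
        (q + 1 - r'.headD 0 % (q + 1)) * p.tail[i]'(by simp at hi ⊢; omega)) (show 0 < q + 1 by omega)
      omega

theorem PF_rkAux {α : Type} [TEnc α] {q n : α → ℕ} {A : α → Mt} (hq : PF q) (hn : PF n)
    (hA : PF A) : PF fun a => ((rkStep (q a + 1))^[n a] (0, A a)).1 := by
  refine PF.fst (PF.iterate' (f := fun a s => rkStep (q a + 1) s)
    (B := fun a => 2 * n a + 1 + (tsz (A a) * ((tsz (A a) * (2 * (tsz (A a) + q a) + 2) + 1) + 1)
      + 1) + 1) ?_ hn (by fun_prop) (by fun_prop) ?_)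
  · have h : PF fun p : α × ℕ × Mt =>
      (p.2.2.find? (fun r => decide (r.headD 0 % (q p.1 + 1) ≠ 0))).elim
      (p.2.1, p.2.2.map fun r => r.tail)
      (fun p' => (p.2.1 + 1, p.2.2.map fun r =>
        List.zipWith (fun x y => (p'.headD 0 * x + ((q p.1 + 1) - r.headD 0 % (q p.1 + 1)) * y)
          % (q p.1 + 1)) r.tail p'.tail)) := by fun_prop
    exact h.of_eq fun p => (rkStep_elim _ _).symm
  · intro a t ht
    change tsz ((rkStep (q a + 1))^[t] (0, A a)) ≤ _
    obtain ⟨h1, h2, h3⟩ := rk_inv (q a) (A a) t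
    rw [tsz_pair, tsz_nat]
    have h4 := tsz_mat_le (m := tsz (A a)) (n := tsz (A a)) (b := tsz (A a) + q a)
      (by rw [h2]; have := length_lt_tsz (A a); omega) (fun r hr => (h3 r hr).1)
      (fun r hr => (h3 r hr).2)
    omega

@[fun_prop]
theorem PF_rk {α : Type} [TEnc α] {q n : α → ℕ} {A : α → Mt} (hq : PF q) (hn : PF n)
    (hA : PF A) : PF fun a => rk (q a) (n a) (A a) := by
  refine (PF_rkAux (q := fun a => max (q a) 1 - 1) (by fun_prop) hn hA).of_eq fun a => ?_
  rw [rk, Nat.sub_add_cancel (le_max_right _ _)]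


section
variable {α β : Type} [TEnc α] [TEnc β]

theorem PF_tup {T : α → LM} (hT : PF T) : PF fun a => (T a).tup :=
  hT.congr_enc fun _ => rfl

@[fun_prop]
theorem PF_N {T : α → LM} (hT : PF T) : PF fun a => (T a).N := PF.fst (PF_tup hT)
@[fun_prop]
theorem PF_N' {T : α → LM} (hT : PF T) : PF fun a => (T a).N' := PF.fst (PF.snd (PF_tup hT))
@[fun_prop]
theorem PF_A0 {T : α → LM} (hT : PF T) : PF fun a => (T a).A0 :=
  PF.fst (PF.snd (PF.snd (PF_tup hT)))
@[fun_prop]
theorem PF_P {T : α → LM} (hT : PF T) : PF fun a => (T a).P :=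
  PF.snd (PF.snd (PF.snd (PF_tup hT)))

@[fun_prop]
theorem PF_mk {n n' : α → ℕ} {A : α → Mt} {P : α → List (List Mt)} (h1 : PF n) (h2 : PF n')
    (h3 : PF A) (h4 : PF P) : PF fun a => LM.mk (n a) (n' a) (A a) (P a) :=
  (PF.pair h1 (PF.pair h2 (PF.pair h3 h4))).congr_enc fun _ => rfl

@[fun_prop]
theorem PF_ent {A : α → Mt} {i j : α → ℕ} (hA : PF A) (hi : PF i) (hj : PF j) :
    PF fun a => ent (A a) (i a) (j a) := by
  unfold ent
  fun_prop

@[fun_prop]
theorem PF_tab {m n : α → ℕ} {f : α → ℕ → ℕ → ℕ} (hm : PF m) (hn : PF n)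
    (hf : PF fun p : α × ℕ × ℕ => f p.1 p.2.1 p.2.2) :
    PF fun a => tab (m a) (n a) (f a) := by
  unfold tab
  fun_prop

@[fun_prop]
theorem PF_evalAt {q d : α → ℕ} {T : α → LM} {Ms : α → List Mt} (hq : PF q) (hT : PF T)
    (hd : PF d) (hM : PF Ms) : PF fun a => evalAt (q a) (T a) (d a) (Ms a) := by
  unfold evalAt
  fun_prop

@[fun_prop]
theorem PF_ext {n' : α → ℕ} {T : α → LM} {g : α → ℕ → ℕ → ℕ} (hT : PF T) (hn : PF n')
    (hg : PF fun p : α × ℕ × ℕ => g p.1 p.2.1 p.2.2) :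
    PF fun a => ext (T a) (n' a) (g a) := by
  unfold ext
  fun_prop


@[fun_prop]
theorem PF_copiesL {d : α → ℕ} {T : α → LM} (hT : PF T) (hd : PF d) :
    PF fun a => copiesL (T a) (d a) := by
  unfold copiesL
  fun_prop

@[fun_prop]
theorem PF_PBl {q d b : α → ℕ} {T : α → LM} {Ms : α → List Mt} {L : α → Mt} (hq : PF q)
    (hT : PF T) (hd : PF d) (hM : PF Ms) (hL : PF L) (hb : PF b) :
    PF fun a => PBl (q a) (T a) (d a) (Ms a) (L a) (b a) := by
  unfold PBl
  fun_prop

@[fun_prop]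
theorem PF_PHl {q d b : α → ℕ} {T : α → LM} {Ms : α → List Mt} {L : α → Mt} (hq : PF q)
    (hT : PF T) (hd : PF d) (hM : PF Ms) (hL : PF L) (hb : PF b) :
    PF fun a => PHl (q a) (T a) (d a) (Ms a) (L a) (b a) := by
  unfold PHl
  fun_prop

@[fun_prop]
theorem PF_updMs {d l b b' t : α → ℕ} {Ms : α → List Mt} (hd : PF d) (hM : PF Ms) (hl : PF l)
    (hb : PF b) (hb' : PF b') (ht : PF t) :
    PF fun a => updMs (d a) (Ms a) (l a) (b a) (b' a) (t a) := by
  unfold updMs
  fun_prop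

@[fun_prop]
theorem PF_updLs {d B i b t : α → ℕ} {L : α → Mt} (hd : PF d) (hB : PF B) (hL : PF L) (hi : PF i)
    (hb : PF b) (ht : PF t) :
    PF fun a => updLs (d a) (B a) (L a) (i a) (b a) (t a) := by
  unfold updLs
  fun_prop

@[fun_prop]
theorem PF_cands {q d B : α → ℕ} {s : α → List Mt × Mt} (hq : PF q) (hd : PF d) (hB : PF B)
    (hs : PF s) : PF fun a => cands (q a) (d a) (B a) (s a) := by
  unfold cands
  fun_prop

@[fun_prop]
theorem PF_st0 {d B : α → ℕ} {T : α → LM} (hT : PF T) (hd : PF d) (hB : PF B) :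
    PF fun a => st0 (T a) (d a) (B a) := by
  unfold st0
  fun_prop

@[fun_prop]
theorem PF_potMax {n d : α → ℕ} (hn : PF n) (hd : PF d) : PF fun a => potMax (n a) (d a) := by
  unfold potMax
  fun_prop

@[fun_prop]
theorem PF_dim {p n : α → ℕ} (hp : PF p) (hn : PF n) : PF fun a => dim (p a) (n a) := by
  unfold dim
  fun_prop

/-- The bound for the prime has polynomial size. -/
theorem PF_bnd0 (ps : List ℕ) : PF fun n : ℕ => bnd ps n := by
  induction ps with
  | nil => exact PF.const 2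
  | cons p ps ih =>
    unfold bnd
    have h1 : PF fun n : ℕ => bnd ps (n * dim p n) := PF.comp ih (by fun_prop)
    have h2 : PF fun n : ℕ => bnd ps (dim p n * (n * dim p n)) := PF.comp ih (by fun_prop)
    exact PF.add (PF.add (by fun_prop) h1) h2

@[fun_prop]
theorem PF_bnd (ps : List ℕ) {n : α → ℕ} (hn : PF n) : PF fun a => bnd ps (n a) :=
  (PF_bnd0 ps).comp hn

variable {R : ℕ → LM → ℕ}

theorem PF_pot (hR : PF fun p : ℕ × LM => R p.1 p.2) {q d B : α → ℕ} {T : α → LM}
    {s : α → List Mt × Mt} (hq : PF q) (hT : PF T) (hd : PF d) (hB : PF B) (hs : PF s) :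
    PF fun a => pot (q a) (R (q a)) (T a) (d a) (B a) (s a) := by
  unfold pot
  fun_prop

theorem PF_lsStep (hR : PF fun p : ℕ × LM => R p.1 p.2) {q d B : α → ℕ} {T : α → LM}
    {s : α → List Mt × Mt} (hq : PF q) (hT : PF T) (hd : PF d) (hB : PF B) (hs : PF s) :
    PF fun a => lsStep (q a) (R (q a)) (T a) (d a) (B a) (s a) := by
  unfold lsStep
  refine PF.option_getD (PF.find? (by fun_prop) (PF.decide_lt ?_ ?_)) hs
  · exact PF_pot (α := α × List Mt × Mt) (q := fun p => q p.1) (T := fun p => T p.1)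
      (d := fun p => d p.1) (B := fun p => B p.1) (s := fun p => s p.1) hR (by fun_prop)
      (by fun_prop) (by fun_prop) (by fun_prop) (by fun_prop)
  · exact PF_pot (α := α × List Mt × Mt) (q := fun p => q p.1) (T := fun p => T p.1)
      (d := fun p => d p.1) (B := fun p => B p.1) (s := fun p => p.2) hR (by fun_prop)
      (by fun_prop) (by fun_prop) (by fun_prop) (by fun_prop)

/-- a matrix with at most `m` rows, at most `n` columns and entries at most `b` -/
def M1 (m n b : ℕ) (A : Mt) : Prop := A.length ≤ m ∧ ∀ r ∈ A, r.length ≤ n ∧ ∀ x ∈ r, x ≤ b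

theorem M1.tsz {m n b : ℕ} {A : Mt} (h : M1 m n b A) :
    tsz A ≤ m * ((n * (2 * b + 2) + 1) + 1) + 1 :=
  tsz_mat_le h.1 (fun r hr => (h.2 r hr).1) fun r hr => (h.2 r hr).2

theorem getD_le {l : List ℕ} {b : ℕ} (h : ∀ x ∈ l, x ≤ b) (i : ℕ) : l.getD i 0 ≤ b := by
  rw [List.getD_eq_getElem?_getD]
  cases hi : l[i]? with
  | none => simp
  | some x => exact h x (List.mem_of_getElem? hi)

theorem M1.ent {m n b : ℕ} {A : Mt} (h : M1 m n b A) (i j : ℕ) : ent A i j ≤ b := by
  unfold GAP.ent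
  refine getD_le ?_ j
  rw [List.getD_eq_getElem?_getD]
  cases hi : A[i]? with
  | none => simp
  | some r => exact (h.2 r (List.mem_of_getElem? hi)).2

theorem M1_tab {m n b : ℕ} {f : ℕ → ℕ → ℕ} (h : ∀ i j, f i j ≤ b) : M1 m n b (tab m n f) := by
  unfold tab
  refine ⟨by simp, fun r hr => ?_⟩
  obtain ⟨i, -, rfl⟩ := List.mem_map.1 hr
  refine ⟨by simp, fun x hx => ?_⟩
  obtain ⟨j, -, rfl⟩ := List.mem_map.1 hx
  exact h i j

/-- bounded states -/
def SB (n d B b : ℕ) (s : List Mt × Mt) : Prop :=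
  s.1.length ≤ n ∧ (∀ M ∈ s.1, M1 d d b M) ∧ M1 B d b s.2

theorem SB.tsz {n d B b : ℕ} {s : List Mt × Mt} (h : SB n d B b s) :
    tsz s ≤ (n * ((d * ((d * (2 * b + 2) + 1) + 1) + 1) + 1) + 1) +
      (B * ((d * (2 * b + 2) + 1) + 1) + 1) + 1 := by
  rw [tsz_pair]
  have h1 := tsz_list_le h.1 fun M hM => (h.2.1 M hM).tsz
  have h2 := h.2.2.tsz
  omega

theorem SB_cands {q n d B : ℕ} {s s' : List Mt × Mt} (h : SB n d B q s) (hs : s' ∈ cands q d B s) :
    SB n d B q s' := by
  rw [cands, List.mem_append] at hs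
  rcases hs with hs | hs
  · obtain ⟨l, -, hs⟩ := List.mem_flatMap.1 hs
    obtain ⟨a, -, hs⟩ := List.mem_flatMap.1 hs
    obtain ⟨a', -, hs⟩ := List.mem_flatMap.1 hs
    obtain ⟨t, ht, rfl⟩ := List.mem_map.1 hs
    refine ⟨by simpa [updMs] using h.1, fun M hM => ?_, h.2.2⟩
    obtain ⟨l', -, rfl⟩ := List.mem_map.1 hM
    apply M1_tab
    intro x y
    split
    · exact (List.mem_range.1 ht).le
    · rw [List.getD_eq_getElem?_getD]
      cases hl : s.1[l']? with
      | none => simp [ent]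
      | some M => exact (h.2.1 M (List.mem_of_getElem? hl)).ent x y
  · obtain ⟨i, -, hs⟩ := List.mem_flatMap.1 hs
    obtain ⟨a, -, hs⟩ := List.mem_flatMap.1 hs
    obtain ⟨t, ht, rfl⟩ := List.mem_map.1 hs
    refine ⟨h.1, h.2.1, ?_⟩
    apply M1_tab
    intro x y
    split
    · exact (List.mem_range.1 ht).le
    · exact h.2.2.ent x y

theorem SB_lsStep {q n d B : ℕ} {R : LM → ℕ} {T : LM} {s : List Mt × Mt} (h : SB n d B q s) :
    SB n d B q (lsStep q R T d B s) := by
  unfold lsStep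
  cases hf : (cands q d B s).find? fun s' => decide (pot q R T d B s < pot q R T d B s') with
  | none => exact h
  | some s' => exact SB_cands h (List.mem_of_find?_eq_some hf)

theorem SB_iter {q n d B : ℕ} {R : LM → ℕ} {T : LM} {s : List Mt × Mt} (h : SB n d B q s)
    (t : ℕ) : SB n d B q ((lsStep q R T d B)^[t] s) := by
  induction t with
  | zero => exact h
  | succ t ih => rw [Function.iterate_succ_apply']; exact SB_lsStep ih

theorem SB_st0 (q : ℕ) (T : LM) (d B : ℕ) : SB (T.P.headD []).length d B q (st0 T d B) := by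
  refine ⟨by simp [st0], fun M hM => ?_, M1_tab fun _ _ => Nat.zero_le _⟩
  obtain ⟨A, -, rfl⟩ := List.mem_map.1 hM
  exact M1_tab fun _ _ => Nat.zero_le _

theorem PF_lsRun (hR : PF fun p : ℕ × LM => R p.1 p.2) {q d : α → ℕ} {T : α → LM}
    (hq : PF q) (hT : PF T) (hd : PF d) :
    PF fun a => lsRun (q a) (R (q a)) (T a) (d a) := by
  unfold lsRun
  refine PF.iterate' (f := fun a s => lsStep (q a) (R (q a)) (T a) (d a) ((T a).N ^ 2) s)
    (B := fun a => (((T a).P.headD []).length *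
      ((d a * ((d a * (2 * q a + 2) + 1) + 1) + 1) + 1) + 1) +
      ((T a).N ^ 2 * ((d a * (2 * q a + 2) + 1) + 1) + 1) + 1) ?_ (by fun_prop)
    (by fun_prop) (PB.nat (by fun_prop)) ?_
  · exact PF_lsStep (α := α × List Mt × Mt) (q := fun p => q p.1) (T := fun p => T p.1)
      (d := fun p => d p.1) (B := fun p => (T p.1).N ^ 2) (s := fun p => p.2) hR (by fun_prop)
      (by fun_prop) (by fun_prop) (by fun_prop) (by fun_prop)
  · intro a t _
    exact (SB_iter (SB_st0 (q a) (T a) (d a) ((T a).N ^ 2)) t).tsz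

theorem PF_rankLevel (hR : PF fun p : ℕ × LM => R p.1 p.2) {q p : α → ℕ} {T : α → LM}
    (hq : PF q) (hT : PF T) (hp : PF p) :
    PF fun a => rankLevel (q a) (R (q a)) (p a) (T a) := by
  unfold rankLevel
  have h := PF_lsRun hR hq hT (d := fun a => dim (p a) (T a).N) (by fun_prop)
  have h2 : ∀ {s : α → List Mt × Mt}, PF s → PF fun a =>
      (R (q a) (evalAt (q a) (T a) (dim (p a) (T a).N) (s a).1) + dim (p a) (T a).N - 1) /
        dim (p a) (T a).N := by
    intro s hs
    fun_prop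
  exact h2 h

/-- **The program runs in polynomial time.** -/
theorem PF_RANK0 (ps : List ℕ) : PF fun p : ℕ × LM => RANK p.1 ps p.2 := by
  induction ps with
  | nil =>
    unfold RANK
    fun_prop
  | cons p ps ih =>
    unfold RANK
    exact PF_rankLevel (R := fun q T => RANK q ps T) ih (by fun_prop) (by fun_prop)
      (by fun_prop)

@[fun_prop]
theorem PF_RANK (ps : List ℕ) {q : α → ℕ} {T : α → LM} (hq : PF q) (hT : PF T) :
    PF fun a => RANK (q a) ps (T a) :=
  PF.comp (g := fun a => (q a, T a)) (PF_RANK0 ps) (by fun_prop)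

end

end GAP
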