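import Mathlib

/-! # The input alphabet -/

namespace GAP

/-- The four input symbols. -/
inductive Sy
  | zero | one | comma | semi
  deriving DecidableEq, Fintype

end GAP
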