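import Pool.Agent.Lib.PolyTree.GraphInput
import Pool.Agent.Lib.GAP.Sy

/-! # GA (machine side): graphs given by a list of vertices and a list of edges

The vertices have names, arbitrary words of bits. The input word consists of the names of the
vertices, each followed by a comma, then a semicolon, then the edges: the names of the two end
vertices, each followed by a comma. -/

namespace GAP

open Pool.Agent.Lib.PolyTree
open Pool.Agent.Lib.PolyTM (PolyFun)
open Turing

/-- A bit as a symbol. -/
def bitSy (b : Bool) : Sy := if b then .one else .zero

/-- A list of names: every name is followed by a comma. -/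
def encNames (ts : List (List Bool)) : List Sy := ts.flatMap fun t => t.map bitSy ++ [Sy.comma]

/-- The names at the ends of the edges. -/
def ends {α : Type} (es : List (α × α)) : List α := es.flatMap fun e => [e.1, e.2]

/-- The input word of a list of vertices and a list of edges. -/
def encVE (vs : List (List Bool)) (es : List (List Bool × List Bool)) : List Sy :=
  encNames vs ++ Sy.semi :: encNames (ends es)

instance : TEnc Sy :=
  ⟨fun a => symT (decide (a = .one ∨ a = .semi)) (decide (a = .comma ∨ a = .semi)), by
    intro a b h
    cases a <;> cases b <;> simp_all [symT, bt]⟩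

/-- One step of the tokenizer. -/
def tokStep (s : List Bool × List (List Bool)) (a : Sy) : List Bool × List (List Bool) :=
  if a = Sy.comma then ([], s.1.reverse :: s.2)
  else if a = Sy.semi then s else (decide (a = Sy.one) :: s.1, s.2)

/-- The names of a word, each ended by a comma. -/
def toks (w : List Sy) : List (List Bool) := (w.foldl tokStep ([], [])).2.reverse

/-- Position of the semicolon. -/
def semiPos (w : List Sy) : ℕ :=
  ((List.range w.length).find? fun i => decide (w[i]? = some Sy.semi)).getD w.length

/-- The names of the vertices. -/
def parseV (w : List Sy) : List (List Bool) := toks (w.take (semiPos w))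

/-- The edges. -/
def parseE (w : List Sy) : List (List Bool × List Bool) :=
  (List.range ((toks (w.drop (semiPos w + 1))).length / 2)).map fun i =>
    ((toks (w.drop (semiPos w + 1))).getD (2 * i) [],
      (toks (w.drop (semiPos w + 1))).getD (2 * i + 1) [])

/-- Position of a name in a list. -/
def posOf (vs : List (List Bool)) (t : List Bool) : ℕ :=
  ((List.range vs.length).find? fun i => decide (vs[i]? = some t)).getD vs.length

section PF
variable {α : Type} [TEnc α]

theorem tsz_bits_le (l : List Bool) : tsz l ≤ 4 * l.length + 1 := by
  have := tsz_list_le (l := l) (b := 3) le_rfl fun b _ => tsz_bool_le b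
  omega

theorem tok_inv (w : List Sy) : ∀ s : List Bool × List (List Bool),
    tsz (w.foldl tokStep s) ≤ tsz s + 5 * w.length := by
  induction w with
  | nil => intro s; simp
  | cons a w ih =>
    intro s
    rw [List.foldl_cons, List.length_cons]
    refine (ih _).trans ?_
    have h : tsz (tokStep s a) ≤ tsz s + 5 := by
      unfold tokStep
      split
      · simp only [tsz_pair, tsz_nil, tsz_cons, tsz_reverse]
        omega
      · split
        · omega
        · simp only [tsz_pair, tsz_cons]
          have := tsz_bool_le (decide (a = Sy.one))
          omega
    omega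

@[fun_prop]
theorem PF_toks {w : α → List Sy} (hw : PF w) : PF fun a => toks (w a) := by
  unfold toks
  refine PF.reverse (PF.snd (PF.foldl (h := fun _ s b => tokStep s b)
    (B := fun a => 3 + 5 * (w a).length) ?_ hw (by fun_prop) (by fun_prop) ?_))
  · unfold tokStep
    fun_prop
  · intro a l hl
    refine (tok_inv l _).trans ?_
    have := hl.length_le
    simp only [tsz_pair, tsz_nil]
    omega

@[fun_prop]
theorem PF_semiPos {w : α → List Sy} (hw : PF w) : PF fun a => semiPos (w a) := by
  unfold semiPos
  fun_prop

@[fun_prop]
theorem PF_parseV {w : α → List Sy} (hw : PF w) : PF fun a => parseV (w a) := by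
  unfold parseV
  fun_prop

@[fun_prop]
theorem PF_parseE {w : α → List Sy} (hw : PF w) : PF fun a => parseE (w a) := by
  unfold parseE
  fun_prop

@[fun_prop]
theorem PF_posOf {vs : α → List (List Bool)} {t : α → List Bool} (hv : PF vs) (ht : PF t) :
    PF fun a => posOf (vs a) (t a) := by
  unfold posOf
  fun_prop

end PF

/-! ### Correctness -/

theorem tok_bits (t : List Bool) : ∀ (c : List Bool) (acc : List (List Bool)),
    (t.map bitSy).foldl tokStep (c, acc) = (t.reverse ++ c, acc) := by
  induction t with
  | nil => intro c acc; rfl
  | cons b t ih =>
    intro c acc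
    rw [List.map_cons, List.foldl_cons]
    have : tokStep (c, acc) (bitSy b) = (b :: c, acc) := by
      cases b <;> simp [tokStep, bitSy]
    rw [this, ih]
    simp

theorem tok_names (ts : List (List Bool)) : ∀ acc : List (List Bool),
    (encNames ts).foldl tokStep ([], acc) = ([], ts.reverse ++ acc) := by
  induction ts with
  | nil => intro acc; rfl
  | cons t ts ih =>
    intro acc
    have h1 : encNames (t :: ts) = t.map bitSy ++ (Sy.comma :: encNames ts) := by
      simp [encNames]
    rw [h1, List.foldl_append, tok_bits, List.foldl_cons]
    have h2 : tokStep (t.reverse ++ [], acc) Sy.comma = ([], t :: acc) := by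
      simp [tokStep]
    rw [h2, ih]
    simp

theorem toks_encNames (ts : List (List Bool)) : toks (encNames ts) = ts := by
  rw [toks, tok_names]
  simp

theorem semi_notMem (ts : List (List Bool)) : Sy.semi ∉ encNames ts := by
  intro h
  rw [encNames, List.mem_flatMap] at h
  obtain ⟨t, -, h⟩ := h
  rcases List.mem_append.1 h with h | h
  · obtain ⟨b, -, h⟩ := List.mem_map.1 h
    cases b <;> simp [bitSy] at h
  · simp at h

theorem semiPos_enc (u v : List Sy) (hu : Sy.semi ∉ u) : semiPos (u ++ Sy.semi :: v) = u.length := by
  unfold semiPos
  have h : (List.range (u ++ Sy.semi :: v).length).find?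
      (fun i => decide ((u ++ Sy.semi :: v)[i]? = some Sy.semi)) = some u.length := by
    rw [List.find?_range_eq_some]
    refine ⟨?_, ?_, ?_⟩
    · simp
    · simp
    · intro j hj
      have h1 : (u ++ Sy.semi :: v)[j]? = some u[j] := by
        rw [List.getElem?_append_left hj, List.getElem?_eq_getElem hj]
      rw [h1]
      simp only [Option.some.injEq, Bool.not_eq_eq_eq_not, Bool.not_true, decide_eq_false_iff_not]
      intro h
      exact hu (h ▸ List.getElem_mem hj)
  rw [h]
  rfl

theorem parseV_enc (vs : List (List Bool)) (es : List (List Bool × List Bool)) :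
    parseV (encVE vs es) = vs := by
  rw [parseV, encVE, semiPos_enc _ _ (semi_notMem vs), List.take_left, toks_encNames]

theorem length_ends {α : Type} (es : List (α × α)) : (ends es).length = 2 * es.length := by
  induction es with
  | nil => rfl
  | cons e es ih =>
    have : ends (e :: es) = e.1 :: e.2 :: ends es := rfl
    rw [this, List.length_cons, List.length_cons, ih, List.length_cons]
    ring

theorem ends_getD {α : Type} (z : α) (es : List (α × α)) (i : ℕ) (hi : i < es.length) :
    ((ends es).getD (2 * i) z, (ends es).getD (2 * i + 1) z) = es[i] := by
  induction es generalizing i with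
  | nil => simp at hi
  | cons e es ih =>
    have h : ends (e :: es) = e.1 :: e.2 :: ends es := rfl
    cases i with
    | zero => simp [h]
    | succ i =>
      have e1 : 2 * (i + 1) = 2 * i + 1 + 1 := by ring
      have e2 : 2 * (i + 1) + 1 = (2 * i + 1) + 1 + 1 := by ring
      rw [h, e1, List.getD_cons_succ, List.getD_cons_succ, List.getD_cons_succ,
        List.getD_cons_succ, ih i (by simpa using hi)]
      simp

theorem parseE_enc (vs : List (List Bool)) (es : List (List Bool × List Bool)) :
    parseE (encVE vs es) = es := by
  have h1 : (encVE vs es).drop (semiPos (encVE vs es) + 1) = encNames (ends es) := by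
    rw [encVE, semiPos_enc _ _ (semi_notMem vs)]
    rw [show encNames vs ++ Sy.semi :: encNames (ends es) =
      (encNames vs ++ [Sy.semi]) ++ encNames (ends es) by simp]
    rw [List.drop_left' (by simp)]
  rw [parseE, h1, toks_encNames, length_ends]
  rw [show 2 * es.length / 2 = es.length by omega]
  apply List.ext_getElem
  · simp
  · intro i h2 h3
    rw [List.getElem_map, List.getElem_range]
    exact ends_getD [] es i h3

theorem posOf_getElem {vs : List (List Bool)} (hvs : vs.Nodup) (i : ℕ) (hi : i < vs.length) :
    posOf vs vs[i] = i := by
  unfold posOf
  have h : (List.range vs.length).find? (fun j => decide (vs[j]? = some vs[i])) = some i := by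
    rw [List.find?_range_eq_some]
    refine ⟨?_, ?_, ?_⟩
    · simp [List.getElem?_eq_getElem hi]
    · simpa using hi
    · intro j hj
      rw [List.getElem?_eq_getElem (by omega)]
      simp only [Option.some.injEq, Bool.not_eq_eq_eq_not, Bool.not_true, decide_eq_false_iff_not]
      intro h
      have := (List.Nodup.getElem_inj_iff hvs).1 h
      omega
  rw [h]
  rfl

theorem posOf_eq_idxOf (vs : List (List Bool)) (t : List Bool) : posOf vs t = vs.idxOf t := by
  unfold posOf
  by_cases ht : t ∈ vs
  · have hi : vs.idxOf t < vs.length := List.idxOf_lt_length_of_mem ht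
    have h : (List.range vs.length).find? (fun j => decide (vs[j]? = some t)) =
        some (vs.idxOf t) := by
      rw [List.find?_range_eq_some]
      refine ⟨?_, ?_, ?_⟩
      · rw [List.getElem?_eq_getElem hi, List.getElem_idxOf]
        simp
      · simpa using hi
      · intro j hj
        rw [List.getElem?_eq_getElem (by omega)]
        simp only [Option.some.injEq, Bool.not_eq_eq_eq_not, Bool.not_true,
          decide_eq_false_iff_not]
        intro h
        have h1 : t ∈ vs.take (j + 1) := by
          rw [List.mem_take_iff_getElem]
          exact ⟨j, by omega, h⟩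
        rw [List.mem_take_iff_idxOf_lt ht] at h1
        omega
    rw [h]
    rfl
  · have h : (List.range vs.length).find? (fun j => decide (vs[j]? = some t)) = none := by
      rw [List.find?_eq_none]
      intro j hj
      rw [List.getElem?_eq_getElem (List.mem_range.1 hj)]
      simp only [Option.some.injEq, decide_eq_true_eq]
      intro h
      exact ht (h ▸ List.getElem_mem _)
    rw [h, List.idxOf_eq_length ht]
    rfl

/-- The number of vertices and the edges as pairs of positions. -/
def parse (w : List Sy) : ℕ × List (ℕ × ℕ) :=
  ((parseV w).length, (parseE w).map fun e => (posOf (parseV w) e.1, posOf (parseV w) e.2))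

@[fun_prop]
theorem PF_parse {α : Type} [TEnc α] {w : α → List Sy} (hw : PF w) : PF fun a => parse (w a) := by
  unfold parse
  fun_prop

theorem parse_enc (vs : List (List Bool)) (es : List (List Bool × List Bool)) :
    parse (encVE vs es) = (vs.length, es.map fun e => (vs.idxOf e.1, vs.idxOf e.2)) := by
  rw [parse, parseV_enc, parseE_enc]
  simp only [posOf_eq_idxOf]

/-- **Machines for decision problems on graphs given by vertex and edge lists.** -/
theorem VE_machine {G : Type} (en : G → List Sy) (D : G → Prop) [DecidablePred D]
    (f : List Sy → Bool) (hf : PF f) (h : ∀ I : G, f (en I) = true ↔ D I) :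
    ∃ M : TM2ComputableInPolyTime en id (fun I : G => [decide (D I)]),
      ∀ k, Finite (M.tm.Γ k) := by
  have h1 := PF.polyFun_bool (fun a : Sy => decide (a = .one ∨ a = .semi))
    (fun a => decide (a = .comma ∨ a = .semi)) (fun a => rfl) hf
  obtain ⟨M, hM⟩ := machine_of_polyFun en h1
  have e : (fun I : G => [f (en I)]) = fun I : G => [decide (D I)] := by
    funext I
    congr 1
    rw [Bool.eq_iff_iff, h I]
    simp
  rw [← e]
  exact ⟨M, hM⟩

end GAP
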