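import Pool.Agent.Lib.PolyTree.Lists

/-! # GA (machine side): logarithms and bounded powers -/

namespace GAP

open Pool.Agent.Lib.PolyTree

variable {α : Type} [TEnc α]

/-- one step of the computation of the logarithm: `s = (n, count)` -/
def logStep (b : ℕ) (s : ℕ × ℕ) : ℕ × ℕ := if 1 < b ∧ b ≤ s.1 then (s.1 / b, s.2 + 1) else s

theorem log_inv (b : ℕ) (t : ℕ) : ∀ s : ℕ × ℕ,
    ((logStep b)^[t] s).2 + Nat.log b ((logStep b)^[t] s).1 = s.2 + Nat.log b s.1 ∧
    ((logStep b)^[t] s).1 ≤ s.1 ∧ ((logStep b)^[t] s).2 ≤ s.2 + t ∧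
    (s.1 ≤ t → Nat.log b ((logStep b)^[t] s).1 = 0) := by
  induction t with
  | zero =>
    intro s
    refine ⟨rfl, le_rfl, le_rfl, fun h => ?_⟩
    have : s.1 = 0 := by omega
    simp [this]
  | succ t ih =>
    intro s
    rw [Function.iterate_succ_apply]
    by_cases h : 1 < b ∧ b ≤ s.1
    · have e : logStep b s = (s.1 / b, s.2 + 1) := by simp [logStep, h]
      obtain ⟨h1, h2, h3, h4⟩ := ih (logStep b s)
      rw [e] at h1 h2 h3 h4 ⊢
      have hlt : s.1 / b < s.1 := Nat.div_lt_self (by omega) h.1
      refine ⟨?_, ?_, ?_, ?_⟩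
      · rw [h1, Nat.log_of_one_lt_of_le h.1 h.2]
        simp only
        ring
      · simp only at h2; omega
      · simp only at h3; omega
      · intro hs
        exact h4 (by simp only; omega)
    · have e : logStep b s = s := by simp [logStep, h]
      obtain ⟨h1, h2, h3, h4⟩ := ih s
      rw [e]
      refine ⟨h1, h2, by omega, fun hs => ?_⟩
      have hfix : ∀ k, (logStep b)^[k] s = s := by
        intro k
        induction k with
        | zero => rfl
        | succ k ihk => rw [Function.iterate_succ_apply, e, ihk]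
      rw [hfix]
      rw [Nat.log_eq_zero_iff]
      by_cases h1 : 1 < b
      · left; by_contra h2; exact h ⟨h1, by omega⟩
      · right; omega

theorem log_eq (b n : ℕ) : Nat.log b n = ((logStep b)^[n] (n, 0)).2 := by
  obtain ⟨h1, -, -, h4⟩ := log_inv b n (n, 0)
  have := h4 le_rfl
  simp only at h1
  omega

@[fun_prop]
theorem PF_log {b n : α → ℕ} (hb : PF b) (hn : PF n) : PF fun a => Nat.log (b a) (n a) := by
  have h : PF fun a => ((logStep (b a))^[n a] (n a, 0)).2 := by
    refine PF.snd (PF.iterate' (f := fun a s => logStep (b a) s)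
      (B := fun a => 2 * n a + 1 + (2 * n a + 1) + 1) ?_ hn (by fun_prop)
      (PB.nat (by fun_prop)) ?_)
    · unfold logStep
      fun_prop
    · intro a t ht
      change tsz ((logStep (b a))^[t] (n a, 0)) ≤ _
      obtain ⟨-, h2, h3, -⟩ := log_inv (b a) t (n a, 0)
      simp only [tsz_pair, tsz_nat] at h2 h3 ⊢
      omega
  exact h.of_eq fun a => (log_eq _ _).symm

/-- the power `p ^ (log_p n + 1)` -/
theorem pow_log_le (p n t : ℕ) (ht : t ≤ Nat.log p n) : p ^ (t + 1) ≤ p * (n + 1) := by
  by_cases hn : n = 0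
  · subst hn
    simp only [Nat.log_zero_right, Nat.le_zero] at ht
    subst ht
    simp
  · by_cases hp : p = 0
    · subst hp; simp
    · rw [pow_succ, mul_comm]
      apply Nat.mul_le_mul_left
      calc p ^ t ≤ p ^ Nat.log p n := Nat.pow_le_pow_right (by omega) ht
        _ ≤ n := Nat.pow_log_le_self p hn
        _ ≤ n + 1 := Nat.le_succ n

@[fun_prop]
theorem PF_powLog {p n : α → ℕ} (hp : PF p) (hn : PF n) :
    PF fun a => p a ^ (Nat.log (p a) (n a) + 1) := by
  have key : ∀ p t : ℕ, (fun x : ℕ => x * p)^[t] p = p ^ (t + 1) := by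
    intro p t
    induction t with
    | zero => simp
    | succ t ih => rw [Function.iterate_succ_apply', ih, pow_succ p (t + 1)]
  have h : PF fun a => (fun x => x * p a)^[Nat.log (p a) (n a)] (p a) := by
    refine PF.iterate' (f := fun a x => x * p a) (B := fun a => 2 * (p a * (n a + 1)) + 1)
      (by fun_prop) (by fun_prop) hp (PB.nat (by fun_prop)) ?_
    intro a t ht
    rw [key, tsz_nat]
    have := pow_log_le (p a) (n a) t ht.le
    omega
  exact h.of_eq fun a => key _ _

end GAP
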