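import Mathlib

/-! # GA (program side): rank over `F_q` by elimination, matrices as lists of lists of naturals -/

namespace GAP

/-- matrices: lists of rows, entries are naturals read modulo `q` -/
abbrev Mt := List (List ℕ)

/-- entry -/
def ent (A : Mt) (i j : ℕ) : ℕ := (A.getD i []).getD j 0

/-- tabulation -/
def tab (m n : ℕ) (f : ℕ → ℕ → ℕ) : Mt :=
  (List.range m).map fun i => (List.range n).map fun j => f i j

@[simp] theorem length_tab (m n : ℕ) (f : ℕ → ℕ → ℕ) : (tab m n f).length = m := by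
  simp [tab]

theorem ent_tab (m n : ℕ) (f : ℕ → ℕ → ℕ) (i j : ℕ) :
    ent (tab m n f) i j = if i < m ∧ j < n then f i j else 0 := by
  unfold ent tab
  by_cases hi : i < m
  · by_cases hj : j < n
    · simp [hi, hj, List.getD_eq_getElem?_getD]
    · simp [hi, hj, List.getD_eq_getElem?_getD]
  · simp [hi, List.getD_eq_getElem?_getD]

/-- one column of the elimination: the accumulator counts the pivots -/
def rkStep (q : ℕ) (s : ℕ × Mt) : ℕ × Mt :=
  (s.2.find? fun r => decide (r.headD 0 % q ≠ 0)).elim (s.1, s.2.map List.tail) fun p =>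
    (s.1 + 1, s.2.map fun r =>
      List.zipWith (fun x y => (p.headD 0 * x + (q - r.headD 0 % q) * y) % q) r.tail p.tail)

theorem rkStep_none {q : ℕ} {a : ℕ} {A : Mt}
    (h : A.find? (fun r => decide (r.headD 0 % q ≠ 0)) = none) :
    rkStep q (a, A) = (a, A.map List.tail) := by
  unfold rkStep
  rw [h]
  rfl

theorem rkStep_some {q : ℕ} {a : ℕ} {A : Mt} {p : List ℕ}
    (h : A.find? (fun r => decide (r.headD 0 % q ≠ 0)) = some p) :
    rkStep q (a, A) = (a + 1, A.map fun r =>
      List.zipWith (fun x y => (p.headD 0 * x + (q - r.headD 0 % q) * y) % q) r.tail p.tail) := by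
  unfold rkStep
  rw [h]
  rfl

/-- rank modulo `q` of a matrix with `n` columns -/
def rk (q n : ℕ) (A : Mt) : ℕ := ((rkStep (max q 1))^[n] (0, A)).1

section Spec

variable (q : ℕ) [Fact q.Prime]

/-- the vector of a list -/
def vec (n : ℕ) (r : List ℕ) : Fin n → ZMod q := fun j => (r.getD j 0 : ℕ)

/-- the row space -/
def rowsp (n : ℕ) (A : Mt) : Submodule (ZMod q) (Fin n → ZMod q) :=
  Submodule.span (ZMod q) {v | ∃ r ∈ A, v = vec q n r}

theorem vec_succ_zero (n : ℕ) (r : List ℕ) : vec q (n + 1) r 0 = (r.headD 0 : ℕ) := by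
  cases r <;> simp [vec]

theorem vec_succ_succ (n : ℕ) (r : List ℕ) (j : Fin n) :
    vec q (n + 1) r j.succ = vec q n r.tail j := by
  cases r <;> simp [vec]

theorem cast_headD_eq_zero_iff (r : List ℕ) :
    ((r.headD 0 : ℕ) : ZMod q) = 0 ↔ r.headD 0 % q = 0 := by
  rw [ZMod.natCast_eq_zero_iff, Nat.dvd_iff_mod_eq_zero]

/-- `w ↦ (0, w)` -/
def consZ (n : ℕ) : (Fin n → ZMod q) →ₗ[ZMod q] (Fin (n + 1) → ZMod q) where
  toFun w := Fin.cons 0 w
  map_add' x y := by
    funext j
    refine Fin.cases ?_ (fun i => ?_) j <;> simp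
  map_smul' c x := by
    funext j
    refine Fin.cases ?_ (fun i => ?_) j <;> simp

theorem consZ_inj (n : ℕ) : Function.Injective (consZ q n) := by
  intro x y h
  funext j
  have := congrFun h j.succ
  simpa [consZ] using this

theorem finrank_map_consZ (n : ℕ) (W : Submodule (ZMod q) (Fin n → ZMod q)) :
    Module.finrank (ZMod q) (W.map (consZ q n)) = Module.finrank (ZMod q) W :=
  (LinearEquiv.finrank_eq (Submodule.equivMapOfInjective _ (consZ_inj q n) W)).symm

/-- no pivot -/
theorem rowsp_none (n : ℕ) (A : Mt) (h : ∀ r ∈ A, r.headD 0 % q = 0) :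
    rowsp q (n + 1) A = (rowsp q n (A.map List.tail)).map (consZ q n) := by
  unfold rowsp
  rw [Submodule.map_span]
  congr 1
  ext v
  constructor
  · rintro ⟨r, hr, rfl⟩
    refine ⟨vec q n r.tail, ⟨r.tail, List.mem_map_of_mem hr, rfl⟩, ?_⟩
    funext j
    refine Fin.cases ?_ (fun i => ?_) j
    · rw [vec_succ_zero, (cast_headD_eq_zero_iff q r).2 (h r hr)]
      simp [consZ]
    · rw [vec_succ_succ]
      simp [consZ]
  · rintro ⟨w, ⟨r', hr', rfl⟩, rfl⟩
    obtain ⟨r, hr, rfl⟩ := List.mem_map.1 hr'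
    refine ⟨r, hr, ?_⟩
    funext j
    refine Fin.cases ?_ (fun i => ?_) j
    · rw [vec_succ_zero, (cast_headD_eq_zero_iff q r).2 (h r hr)]
      simp [consZ]
    · rw [vec_succ_succ]
      simp [consZ]

/-- the reduced row -/
def redRow (p r : List ℕ) : List ℕ :=
  List.zipWith (fun x y => (p.headD 0 * x + (q - r.headD 0 % q) * y) % q) r.tail p.tail

omit [Fact q.Prime] in
theorem length_redRow (p r : List ℕ) (n : ℕ) (hp : p.length = n + 1) (hr : r.length = n + 1) :
    (redRow q p r).length = n := by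
  simp [redRow, hp, hr]

theorem vec_redRow (n : ℕ) (p r : List ℕ) (hp : p.length = n + 1) (hr : r.length = n + 1)
    (j : Fin n) :
    vec q n (redRow q p r) j =
      vec q (n + 1) p 0 * vec q (n + 1) r j.succ - vec q (n + 1) r 0 * vec q (n + 1) p j.succ := by
  rw [vec_succ_zero, vec_succ_zero, vec_succ_succ, vec_succ_succ]
  unfold redRow vec
  have h1 : (j : ℕ) < r.tail.length := by simp [hr]
  have h2 : (j : ℕ) < p.tail.length := by simp [hp]
  have h3 : (j : ℕ) < (List.zipWith (fun x y => (p.headD 0 * x + (q - r.headD 0 % q) * y) % q)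
      r.tail p.tail).length := by simp [hr, hp]
  rw [List.getD_eq_getElem _ _ h3, List.getD_eq_getElem _ _ h1, List.getD_eq_getElem _ _ h2,
    List.getElem_zipWith]
  have hq : r.headD 0 % q ≤ q := (Nat.mod_lt _ (Nat.Prime.pos Fact.out)).le
  rw [ZMod.natCast_mod]
  push_cast [Nat.cast_sub hq]
  rw [ZMod.natCast_self, ZMod.natCast_mod]
  ring

/-- pivot -/
theorem rowsp_some (n : ℕ) (A : Mt) (p : List ℕ) (hp : p ∈ A) (hp0 : p.headD 0 % q ≠ 0)
    (hlen : ∀ r ∈ A, r.length = n + 1) :
    rowsp q (n + 1) A =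
      Submodule.span (ZMod q) {vec q (n + 1) p} ⊔
        (rowsp q n (A.map (redRow q p))).map (consZ q n) := by
  have hp1 : vec q (n + 1) p 0 ≠ 0 := by
    rw [vec_succ_zero]
    intro h
    exact hp0 ((cast_headD_eq_zero_iff q p).1 h)
  have key : ∀ r ∈ A, consZ q n (vec q n (redRow q p r)) =
      vec q (n + 1) p 0 • vec q (n + 1) r - vec q (n + 1) r 0 • vec q (n + 1) p := by
    intro r hr
    funext j
    refine Fin.cases ?_ (fun i => ?_) j
    · simp [consZ, mul_comm]
    · simp only [consZ, LinearMap.coe_mk, AddHom.coe_mk, Fin.cons_succ, Pi.sub_apply,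
        Pi.smul_apply, smul_eq_mul]
      exact vec_redRow q n p r (hlen p hp) (hlen r hr) i
  apply le_antisymm
  · unfold rowsp
    rw [Submodule.span_le]
    rintro v ⟨r, hr, rfl⟩
    have h1 : vec q (n + 1) r = (vec q (n + 1) p 0)⁻¹ • consZ q n (vec q n (redRow q p r)) +
        ((vec q (n + 1) p 0)⁻¹ * vec q (n + 1) r 0) • vec q (n + 1) p := by
      rw [key r hr, smul_sub, smul_smul, inv_mul_cancel₀ hp1, one_smul, smul_smul,
        sub_add_cancel]
    rw [h1]
    refine Submodule.add_mem _ (Submodule.smul_mem _ _ ?_) (Submodule.smul_mem _ _ ?_)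
    · apply Submodule.mem_sup_right
      exact Submodule.mem_map_of_mem (Submodule.subset_span
        ⟨redRow q p r, List.mem_map_of_mem hr, rfl⟩)
    · apply Submodule.mem_sup_left
      exact Submodule.mem_span_singleton_self _
  · rw [sup_le_iff]
    constructor
    · rw [Submodule.span_singleton_le_iff_mem]
      exact Submodule.subset_span ⟨p, hp, rfl⟩
    · unfold rowsp
      rw [Submodule.map_span, Submodule.span_le]
      rintro v ⟨w, ⟨r', hr', rfl⟩, rfl⟩
      obtain ⟨r, hr, rfl⟩ := List.mem_map.1 hr'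
      rw [key r hr]
      exact Submodule.sub_mem _
        (Submodule.smul_mem _ _ (Submodule.subset_span ⟨r, hr, rfl⟩))
        (Submodule.smul_mem _ _ (Submodule.subset_span ⟨p, hp, rfl⟩))

theorem finrank_rowsp_some (n : ℕ) (A : Mt) (p : List ℕ) (hp : p ∈ A) (hp0 : p.headD 0 % q ≠ 0)
    (hlen : ∀ r ∈ A, r.length = n + 1) :
    Module.finrank (ZMod q) (rowsp q (n + 1) A) =
      1 + Module.finrank (ZMod q) (rowsp q n (A.map (redRow q p))) := by
  have hp1 : vec q (n + 1) p 0 ≠ 0 := by
    rw [vec_succ_zero]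
    intro h
    exact hp0 ((cast_headD_eq_zero_iff q p).1 h)
  rw [rowsp_some q n A p hp hp0 hlen]
  have hinf : Submodule.span (ZMod q) {vec q (n + 1) p} ⊓
      (rowsp q n (A.map (redRow q p))).map (consZ q n) = ⊥ := by
    rw [Submodule.eq_bot_iff]
    intro v hv
    obtain ⟨hv1, hv2⟩ := Submodule.mem_inf.1 hv
    obtain ⟨c, rfl⟩ := Submodule.mem_span_singleton.1 hv1
    obtain ⟨w, -, hw⟩ := Submodule.mem_map.1 hv2
    have h0 := congrFun hw 0
    simp only [consZ, LinearMap.coe_mk, AddHom.coe_mk, Fin.cons_zero, Pi.smul_apply,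
      smul_eq_mul] at h0
    have : c = 0 := by
      rcases mul_eq_zero.1 h0.symm with h | h
      · exact h
      · exact absurd h hp1
    rw [this, zero_smul]
  have h := Submodule.finrank_sup_add_finrank_inf_eq
    (Submodule.span (ZMod q) {vec q (n + 1) p}) ((rowsp q n (A.map (redRow q p))).map (consZ q n))
  rw [hinf, finrank_bot, add_zero, finrank_map_consZ, finrank_span_singleton] at h
  · exact h
  · intro h0
    exact hp1 (by rw [h0]; rfl)

theorem rkStep_iter_spec : ∀ (n a : ℕ) (A : Mt), (∀ r ∈ A, r.length = n) →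
    ((rkStep q)^[n] (a, A)).1 = a + Module.finrank (ZMod q) (rowsp q n A)
  | 0, a, A, _ => by
      have : Module.finrank (ZMod q) (rowsp q 0 A) = 0 := by
        have h1 := Submodule.finrank_le (rowsp q 0 A)
        simpa using h1
      simp [this]
  | n + 1, a, A, hlen => by
      rw [Function.iterate_succ_apply]
      rcases hf : A.find? (fun r => decide (r.headD 0 % q ≠ 0)) with _ | p
      · have hnone : ∀ r ∈ A, r.headD 0 % q = 0 := by
          intro r hr
          have := List.find?_eq_none.1 hf r hr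
          simpa using this
        rw [rkStep_none hf]
        have ih := rkStep_iter_spec n a (A.map List.tail) (by
          intro r hr
          obtain ⟨r', hr', rfl⟩ := List.mem_map.1 hr
          simp [hlen r' hr'])
        rw [ih, rowsp_none q n A hnone, finrank_map_consZ]
      · have hp : p ∈ A := List.mem_of_find?_eq_some hf
        have hp0 : p.headD 0 % q ≠ 0 := by
          have := List.find?_some hf
          simpa using this
        rw [rkStep_some hf]
        have ih := rkStep_iter_spec n (a + 1) (A.map (redRow q p)) (by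
          intro r hr
          obtain ⟨r', hr', rfl⟩ := List.mem_map.1 hr
          exact length_redRow q p r' n (hlen p hp) (hlen r' hr'))
        have h2 : (A.map fun r => List.zipWith
            (fun x y => (p.headD 0 * x + (q - r.headD 0 % q) * y) % q) r.tail p.tail) =
            A.map (redRow q p) := rfl
        rw [h2, ih, finrank_rowsp_some q n A p hp hp0 hlen]
        ring

/-- matrix of a list of lists -/
def toM (m n : ℕ) (A : Mt) : Matrix (Fin m) (Fin n) (ZMod q) :=
  Matrix.of fun i j => ((ent A i j : ℕ) : ZMod q)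

/-- well-formed: exactly `m` rows of length `n` -/
def WF (m n : ℕ) (A : Mt) : Prop := A.length = m ∧ ∀ r ∈ A, r.length = n

theorem WF_tab (m n : ℕ) (f : ℕ → ℕ → ℕ) : WF m n (tab m n f) := by
  refine ⟨length_tab m n f, ?_⟩
  intro r hr
  obtain ⟨i, -, rfl⟩ := List.mem_map.1 hr
  simp

theorem rowsp_eq (m n : ℕ) (A : Mt) (h : WF m n A) :
    rowsp q n A = Submodule.span (ZMod q) (Set.range (toM q m n A).row) := by
  unfold rowsp
  congr 1
  ext v
  constructor
  · rintro ⟨r, hr, rfl⟩
    obtain ⟨i, hi, rfl⟩ := List.mem_iff_getElem.1 hr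
    refine ⟨⟨i, by rw [← h.1]; exact hi⟩, ?_⟩
    funext j
    simp [toM, ent, vec, List.getElem?_eq_getElem hi, Matrix.row]
  · rintro ⟨i, rfl⟩
    have hi : (i : ℕ) < A.length := by rw [h.1]; exact i.2
    refine ⟨A[(i : ℕ)], List.getElem_mem hi, ?_⟩
    funext j
    simp [toM, ent, vec, List.getElem?_eq_getElem hi, Matrix.row]

/-- **the rank routine is correct** -/
theorem rk_eq (m n : ℕ) (A : Mt) (h : WF m n A) : rk q n A = (toM q m n A).rank := by
  unfold rk
  rw [max_eq_left (Nat.Prime.one_le (Fact.out : q.Prime)), rkStep_iter_spec q n 0 A h.2, zero_add, Matrix.rank_eq_finrank_span_row,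
    rowsp_eq q m n A h]

end Spec

end GAP
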