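import Pool.Agent.Lib.GAP.Prog
import Pool.Agent.Lib.GA.Basic1
import Pool.Agent.Lib.GA.Basic2
import Pool.Agent.Lib.GA.Level

/-! # GA: the program computes the stable rank -/

open scoped Kronecker

namespace GAP

open Pool.GA

/-- well-formed affine matrices with `k` parts of `s` variables -/
structure WFL (k s : ℕ) (T : LM) : Prop where
  A0 : WF T.N T.N' T.A0
  len : T.P.length = k
  part : ∀ L ∈ T.P, L.length = s ∧ ∀ A ∈ L, WF T.N T.N' A

/-- the coefficient of variable `l` of part `i` -/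
def co (T : LM) (i l : ℕ) : Mt := (T.P.getD i []).getD l []

/-- the affine matrix described by lists -/
def toPen (F : Type) [Field F] (k s : ℕ) (T : LM) : Pen F k (Fin s) (Fin T.N) (Fin T.N') where
  c := Matrix.of fun i j => ((ent T.A0 i j : ℕ) : F)
  a i l := Matrix.of fun r c => ((ent (co T i l) r c : ℕ) : F)

section Rep

variable {F : Type} [Field F] {k s : ℕ} {m n : Type}

/-- `T` describes `S` after reindexing -/
structure Rep (T : LM) (S : Pen F k (Fin s) m n) (e : Fin T.N ≃ m) (f : Fin T.N' ≃ n) : Prop where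
  c : ∀ (i : Fin T.N) (j : Fin T.N'), ((ent T.A0 (i : ℕ) (j : ℕ) : ℕ) : F) = S.c (e i) (f j)
  a : ∀ (p : Fin k) (l : Fin s) (i : Fin T.N) (j : Fin T.N'),
    ((ent (co T p l) (i : ℕ) (j : ℕ) : ℕ) : F) = S.a p l (e i) (f j)

theorem Rep.toPen_eq {T : LM} {S : Pen F k (Fin s) m n} {e : Fin T.N ≃ m} {f : Fin T.N' ≃ n}
    (h : Rep T S e f) : toPen F k s T = S.sub e f := by
  unfold toPen Pen.sub
  congr 1
  · ext i j
    exact h.c i j
  · funext p l
    ext i j
    exact h.a p l i j

theorem Rep.rho_eq [Fintype m] [Fintype n] {T : LM} {S : Pen F k (Fin s) m n} {e : Fin T.N ≃ m}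
    {f : Fin T.N' ≃ n} (h : Rep T S e f) (P : Fin k → ℕ) : rho P (toPen F k s T) = rho P S := by
  rw [h.toPen_eq]
  exact rho_sub_equiv S e f

theorem rep_toPen (T : LM) : Rep T (toPen F k s T) (Equiv.refl _) (Equiv.refl _) :=
  ⟨fun _ _ => rfl, fun _ _ _ _ => rfl⟩

theorem ent_nil (i j : ℕ) : ent [] i j = 0 := by simp [ent]

theorem getD_map_nil {A B : Type} (L : List (List A)) (g : A → B) (i : ℕ) :
    (L.map fun l => l.map g).getD i [] = (L.getD i []).map g := by
  simp only [List.getD_eq_getElem?_getD, List.getElem?_map]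
  cases L[i]? <;> simp

theorem ent_getD_map (L : List Mt) (m n : ℕ) (g : Mt → ℕ → ℕ → ℕ) (h0 : ∀ i j, g [] i j = 0) (l r c : ℕ) :
    ent ((L.map fun A => tab m n (g A)).getD l []) r c =
      if r < m ∧ c < n then g (L.getD l []) r c else 0 := by
  simp only [List.getD_eq_getElem?_getD, List.getElem?_map]
  cases h : L[l]? with
  | none => simp [ent_nil, h0]
  | some A => simp [ent_tab]

theorem co_map (T : LM) (N N' : ℕ) (A0 : Mt) (m n : ℕ) (g : Mt → ℕ → ℕ → ℕ) (h0 : ∀ i j, g [] i j = 0)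
    (p l r c : ℕ) :
    ent (co ⟨N, N', A0, T.P.map fun L => L.map fun A => tab m n (g A)⟩ p l) r c =
      if r < m ∧ c < n then g (co T p l) r c else 0 := by
  unfold co
  rw [getD_map_nil, ent_getD_map _ _ _ _ h0]

theorem ent_ext_A0 (T : LM) (n' : ℕ) (g : ℕ → ℕ → ℕ) (i j : ℕ) :
    ent (ext T n' g).A0 i j = if i < T.N ∧ j < T.N' + n' then
      (if j < T.N' then ent T.A0 i j else g i (j - T.N')) else 0 :=
  ent_tab _ _ _ _ _

theorem ent_co_ext (T : LM) (n' : ℕ) (g : ℕ → ℕ → ℕ) (p l i j : ℕ) :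
    ent (co (ext T n' g) p l) i j = if i < T.N ∧ j < T.N' + n' then
      (if j < T.N' then ent (co T p l) i j else 0) else 0 :=
  co_map T T.N (T.N' + n') (ext T n' g).A0 T.N (T.N' + n')
    (fun A i j => if j < T.N' then ent A i j else 0) (by simp [ent_nil]) p l i j

/-- the equivalence of the columns of an extension -/
def fExt {a b : ℕ} {A B : Type} (f : Fin a ≃ A) (f' : Fin b ≃ B) : Fin (a + b) ≃ A ⊕ B :=
  finSumFinEquiv.symm.trans (Equiv.sumCongr f f')

theorem fExt_lt {a b : ℕ} {A B : Type} (f : Fin a ≃ A) (f' : Fin b ≃ B) (j : Fin (a + b))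
    (h : (j : ℕ) < a) : fExt f f' j = Sum.inl (f ⟨j, h⟩) := by
  have : finSumFinEquiv.symm j = Sum.inl (⟨j, h⟩ : Fin a) := by
    rw [Equiv.symm_apply_eq]
    rfl
  simp [fExt, this]

theorem fExt_ge {a b : ℕ} {A B : Type} (f : Fin a ≃ A) (f' : Fin b ≃ B) (j : Fin (a + b))
    (h : ¬ (j : ℕ) < a) : fExt f f' j = Sum.inr (f' ⟨j - a, by omega⟩) := by
  have : finSumFinEquiv.symm j = Sum.inr (⟨j - a, by omega⟩ : Fin b) := by
    rw [Equiv.symm_apply_eq]
    apply Fin.ext
    simp only [finSumFinEquiv_apply_right, Fin.val_natAdd]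
    omega
  simp [fExt, this]

theorem rep_ext {T : LM} {S : Pen F k (Fin s) m n} {e : Fin T.N ≃ m} {f : Fin T.N' ≃ n}
    (h : Rep T S e f) (n' : ℕ) (g : ℕ → ℕ → ℕ) {ε : Type} (f' : Fin n' ≃ ε) (J : Matrix m ε F)
    (hJ : ∀ (i : Fin T.N) (j : Fin n'), ((g (i : ℕ) (j : ℕ) : ℕ) : F) = J (e i) (f' j)) :
    Rep (ext T n' g) (S.addCols J) e (fExt f f') := by
  have hc : ∀ (i : Fin T.N) (j : Fin (T.N' + n')), ((ent (ext T n' g).A0 i j : ℕ) : F) =
      (S.addCols J).c (e i) (fExt f f' j) := by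
    intro i j
    rw [ent_ext_A0, if_pos ⟨i.2, j.2⟩]
    by_cases hj : (j : ℕ) < T.N'
    · rw [fExt_lt _ _ _ hj, if_pos hj]
      exact h.c i ⟨j, hj⟩
    · rw [fExt_ge _ _ _ hj, if_neg hj]
      exact hJ i ⟨j - T.N', _⟩
  have ha : ∀ (p : Fin k) (l : Fin s) (i : Fin T.N) (j : Fin (T.N' + n')),
      ((ent (co (ext T n' g) p l) i j : ℕ) : F) = (S.addCols J).a p l (e i) (fExt f f' j) := by
    intro p l i j
    rw [ent_co_ext, if_pos ⟨i.2, j.2⟩]
    by_cases hj : (j : ℕ) < T.N'
    · rw [fExt_lt _ _ _ hj, if_pos hj]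
      exact h.a p l i ⟨j, hj⟩
    · rw [fExt_ge _ _ _ hj, if_neg hj, Nat.cast_zero]
      rfl
  exact ⟨hc, ha⟩

/-- the equivalence of the rows of diagonal copies or of an evaluation -/
def fMul {a b : ℕ} {A B : Type} (f : Fin a ≃ A) (f' : Fin b ≃ B) : Fin (a * b) ≃ A × B :=
  finProdFinEquiv.symm.trans (Equiv.prodCongr f f')

theorem fMul_apply {a b : ℕ} {A B : Type} (f : Fin a ≃ A) (f' : Fin b ≃ B) (j : Fin (a * b)) :
    fMul f f' j = (f ⟨j / b, Nat.div_lt_of_lt_mul (lt_of_lt_of_eq j.2 (mul_comm a b))⟩,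
      f' ⟨j % b, Nat.mod_lt _ (Nat.pos_of_ne_zero (by rintro rfl; exact absurd j.2 (by simp)))⟩) := rfl

theorem ent_copiesL_A0 (T : LM) (D i j : ℕ) :
    ent (copiesL T D).A0 i j = if i < D * T.N ∧ j < D * T.N' then
      (if i / T.N = j / T.N' then ent T.A0 (i % T.N) (j % T.N') else 0) else 0 :=
  ent_tab _ _ _ _ _

theorem ent_co_copiesL (T : LM) (D p l i j : ℕ) :
    ent (co (copiesL T D) p l) i j = if i < D * T.N ∧ j < D * T.N' then
      (if i / T.N = j / T.N' then ent (co T p l) (i % T.N) (j % T.N') else 0) else 0 :=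
  co_map T (D * T.N) (D * T.N') (copiesL T D).A0 (D * T.N) (D * T.N')
    (fun A i j => if i / T.N = j / T.N' then ent A (i % T.N) (j % T.N') else 0)
    (by simp [ent_nil]) p l i j

theorem rep_copies {T : LM} {S : Pen F k (Fin s) m n} {e : Fin T.N ≃ m} {f : Fin T.N' ≃ n}
    (h : Rep T S e f) (D : ℕ) :
    Rep (copiesL T D) (S.copies (Fin D)) (fMul (Equiv.refl _) e) (fMul (Equiv.refl _) f) := by
  have hc : ∀ (i : Fin (D * T.N)) (j : Fin (D * T.N')), ((ent (copiesL T D).A0 i j : ℕ) : F) =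
      (S.copies (Fin D)).c (fMul (Equiv.refl _) e i) (fMul (Equiv.refl _) f j) := by
    intro i j
    rw [ent_copiesL_A0, if_pos ⟨i.2, j.2⟩, fMul_apply, fMul_apply]
    simp only [Pen.copies, Matrix.kroneckerMap_apply, Matrix.one_apply, Equiv.refl_apply, Fin.mk.injEq]
    split_ifs
    · rw [one_mul]
      exact h.c ⟨(i : ℕ) % T.N, _⟩ ⟨(j : ℕ) % T.N', _⟩
    · simp
  have ha : ∀ (p : Fin k) (l : Fin s) (i : Fin (D * T.N)) (j : Fin (D * T.N')),
      ((ent (co (copiesL T D) p l) i j : ℕ) : F) =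
      (S.copies (Fin D)).a p l (fMul (Equiv.refl _) e i) (fMul (Equiv.refl _) f j) := by
    intro p l i j
    rw [ent_co_copiesL, if_pos ⟨i.2, j.2⟩, fMul_apply, fMul_apply]
    simp only [Pen.copies, Matrix.kroneckerMap_apply, Matrix.one_apply, Equiv.refl_apply, Fin.mk.injEq]
    split_ifs
    · rw [one_mul]
      exact h.a p l ⟨(i : ℕ) % T.N, _⟩ ⟨(j : ℕ) % T.N', _⟩
    · simp
  exact ⟨hc, ha⟩

end Rep

section EvalAt

variable {F : Type} [Field F] (q : ℕ) [CharP F q] {k s : ℕ}

theorem cast_mod (x : ℕ) : ((x % q : ℕ) : F) = (x : F) := by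
  conv_rhs => rw [← Nat.div_add_mod x q]
  rw [Nat.cast_add, Nat.cast_mul, CharP.cast_eq_zero F q, zero_mul, zero_add]

theorem headD_eq (L : List (List Mt)) : L.headD [] = L.getD 0 [] := by
  cases L <;> rfl

theorem getD_tail (L : List (List Mt)) (i : ℕ) : L.tail.getD i [] = L.getD (i + 1) [] := by
  cases L <;> simp

theorem ent_evalAt_A0 (T : LM) (d : ℕ) (Ms : List Mt) (i j : ℕ) :
    ent (evalAt q T d Ms).A0 i j = if i < T.N * d ∧ j < T.N' * d then
      ((if i % d = j % d then ent T.A0 (i / d) (j / d) else 0) +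
      ((List.range (T.P.headD []).length).map fun l =>
        ent ((T.P.headD []).getD l []) (i / d) (j / d) * ent (Ms.getD l []) (i % d) (j % d)).sum) % q
      else 0 :=
  ent_tab _ _ _ _ _

theorem ent_co_evalAt (T : LM) (d : ℕ) (Ms : List Mt) (p l i j : ℕ) :
    ent (co (evalAt q T d Ms) p l) i j = if i < T.N * d ∧ j < T.N' * d then
      (if i % d = j % d then ent (co T (p + 1) l) (i / d) (j / d) else 0) else 0 := by
  have := co_map ⟨T.N, T.N', T.A0, T.P.tail⟩ (T.N * d) (T.N' * d) (evalAt q T d Ms).A0 (T.N * d) (T.N' * d)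
    (fun A i j => if i % d = j % d then ent A (i / d) (j / d) else 0)
    (by simp [ent_nil]) p l i j
  refine this.trans ?_
  have h2 : co ⟨T.N, T.N', T.A0, T.P.tail⟩ p l = co T (p + 1) l := by
    unfold co
    rw [getD_tail]
  rw [h2]

/-- matrices of lists -/
def mM (F : Type) [Field F] (s D : ℕ) (Ms : List Mt) : Fin s → Matrix (Fin D) (Fin D) F :=
  fun l => Matrix.of fun i j => ((ent (Ms.getD l []) i j : ℕ) : F)

theorem list_sum_map_range {M : Type*} [AddCommMonoid M] (n : ℕ) (f : ℕ → M) :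
    ((List.range n).map f).sum = ∑ i ∈ Finset.range n, f i := by
  induction n with
  | zero => simp
  | succ n ih => rw [List.range_succ, List.map_append, List.sum_append, ih, Finset.sum_range_succ]; simp

theorem rep_evalAt {T : LM} (hT : WFL (k + 1) s T) (d : ℕ) (Ms : List Mt) :
    Rep (evalAt q T d Ms) (evTop (toPen F (k + 1) s T) (mM F s d Ms))
      (fMul (Equiv.refl _) (Equiv.refl _)) (fMul (Equiv.refl _) (Equiv.refl _)) := by
  have hlen : (T.P.headD []).length = s := by
    have h1 := hT.len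
    cases h : T.P with
    | nil => rw [h] at h1; simp at h1
    | cons L Ls =>
      exact (hT.part L (by rw [h]; exact List.mem_cons_self)).1
  have hc : ∀ (i : Fin (T.N * d)) (j : Fin (T.N' * d)), ((ent (evalAt q T d Ms).A0 i j : ℕ) : F) =
      (evTop (toPen F (k + 1) s T) (mM F s d Ms)).c (fMul (Equiv.refl _) (Equiv.refl _) i)
        (fMul (Equiv.refl _) (Equiv.refl _) j) := by
    intro i j
    rw [ent_evalAt_A0, if_pos ⟨i.2, j.2⟩, fMul_apply, fMul_apply, cast_mod, hlen, list_sum_map_range,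
      Nat.cast_add, Nat.cast_sum, Finset.sum_range]
    simp only [evTop, toPen, mM, Matrix.add_apply, Matrix.kroneckerMap_apply, Matrix.one_apply,
      Equiv.refl_apply, Fin.mk.injEq, Matrix.of_apply, Matrix.sum_apply, Nat.cast_mul]
    congr 1
    · split_ifs <;> simp
    · refine Finset.sum_congr rfl fun l _ => ?_
      rw [headD_eq]
      rfl
  have ha : ∀ (p : Fin k) (l : Fin s) (i : Fin (T.N * d)) (j : Fin (T.N' * d)),
      ((ent (co (evalAt q T d Ms) p l) i j : ℕ) : F) =
      (evTop (toPen F (k + 1) s T) (mM F s d Ms)).a p l (fMul (Equiv.refl _) (Equiv.refl _) i)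
        (fMul (Equiv.refl _) (Equiv.refl _) j) := by
    intro p l i j
    rw [ent_co_evalAt, if_pos ⟨i.2, j.2⟩, fMul_apply, fMul_apply]
    simp only [evTop, toPen, Matrix.kroneckerMap_apply, Matrix.one_apply,
      Equiv.refl_apply, Fin.mk.injEq, Matrix.of_apply, Fin.val_succ]
    split_ifs <;> simp
  exact ⟨hc, ha⟩

/-- functionals of lists -/
def mL (F : Type) [Field F] (B D : ℕ) (L : Mt) : ℕ → Fin D → F :=
  fun i a => if i < B then ((ent L i a : ℕ) : F) else 0

theorem rep_PBl {T : LM} (hT : WFL (k + 1) s T) (D : ℕ) (Ms : List Mt) (L : Mt) {b B : ℕ} (hb : b ≤ B) :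
    Rep (PBl q T D Ms L b) (PB (toPen F (k + 1) s T) (mM F s D Ms) (mL F B D L) b)
      (fMul (Equiv.refl _) (Equiv.refl _))
      (fExt (fMul (Equiv.refl _) (Equiv.refl _)) (fMul (Equiv.refl _) (Equiv.refl _))) := by
  refine rep_ext (rep_evalAt (F := F) q hT D Ms) (b * T.N) _ (fMul (Equiv.refl _) (Equiv.refl _)) _ ?_
  have hJ : ∀ (i : Fin (T.N * D)) (j : Fin (b * T.N)),
      (((if (i : ℕ) / D = (j : ℕ) % T.N then ent L ((j : ℕ) / T.N) ((i : ℕ) % D) else 0 : ℕ) : ℕ) : F) =
      colsL (mL F B D L) b (fMul (Equiv.refl (Fin T.N)) (Equiv.refl (Fin D)) i)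
        (fMul (Equiv.refl (Fin b)) (Equiv.refl (Fin T.N)) j) := by
    intro i j
    have hj : (j : ℕ) / T.N < B :=
      lt_of_lt_of_le (Nat.div_lt_of_lt_mul (lt_of_lt_of_eq j.2 (mul_comm _ _))) hb
    rw [fMul_apply, fMul_apply]
    simp only [colsL, mL, Matrix.of_apply, Equiv.refl_apply, Fin.mk.injEq, hj, if_true]
    split_ifs <;> simp
  exact hJ

theorem rep_PHl {T : LM} (hT : WFL (k + 1) s T) (D : ℕ) (Ms : List Mt) (L : Mt) {b B : ℕ} (hb : b ≤ B) :
    Rep (PHl q T D Ms L b) (PH (toPen F (k + 1) s T) (mM F s D Ms) (mL F B D L) b)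
      (fMul (Equiv.refl _) (fMul (Equiv.refl _) (Equiv.refl _)))
      (fExt (fMul (Equiv.refl _)
        (fExt (fMul (Equiv.refl _) (Equiv.refl _)) (fMul (Equiv.refl _) (Equiv.refl _)))) (Equiv.refl _)) := by
  refine rep_ext (rep_copies (rep_PBl (F := F) q hT D Ms L hb) D) T.N _ (Equiv.refl _) _ ?_
  have hJ : ∀ (i : Fin (D * (T.N * D))) (j : Fin T.N),
      (((if (i : ℕ) % (T.N * D) % D = (i : ℕ) / (T.N * D) ∧ (i : ℕ) % (T.N * D) / D = (j : ℕ) then 1 else 0 : ℕ)
        : ℕ) : F) =
      colsS F D (Fin T.N) (fMul (Equiv.refl (Fin D)) (fMul (Equiv.refl (Fin T.N)) (Equiv.refl (Fin D))) i) j := by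
    intro i j
    rw [fMul_apply, fMul_apply]
    simp only [colsS, Matrix.of_apply, Equiv.refl_apply, Fin.ext_iff]
    split_ifs <;> simp
  exact hJ

end EvalAt

section WF

variable {k s : ℕ}

theorem WFL.ext {T : LM} (h : WFL k s T) (n' : ℕ) (g : ℕ → ℕ → ℕ) : WFL k s (ext T n' g) := by
  refine ⟨WF_tab _ _ _, by simp [GAP.ext, h.len], ?_⟩
  intro L hL
  obtain ⟨L', hL', rfl⟩ := List.mem_map.1 hL
  refine ⟨by simp [(h.part L' hL').1], ?_⟩
  intro A hA
  obtain ⟨A', -, rfl⟩ := List.mem_map.1 hA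
  exact WF_tab _ _ _

theorem WFL.copies {T : LM} (h : WFL k s T) (D : ℕ) : WFL k s (copiesL T D) := by
  refine ⟨WF_tab _ _ _, by simp [GAP.copiesL, h.len], ?_⟩
  intro L hL
  obtain ⟨L', hL', rfl⟩ := List.mem_map.1 hL
  refine ⟨by simp [(h.part L' hL').1], ?_⟩
  intro A hA
  obtain ⟨A', -, rfl⟩ := List.mem_map.1 hA
  exact WF_tab _ _ _

theorem WFL.evalAt {T : LM} (h : WFL (k + 1) s T) (q d : ℕ) (Ms : List Mt) :
    WFL k s (evalAt q T d Ms) := by
  refine ⟨WF_tab _ _ _, by simp [GAP.evalAt, h.len], ?_⟩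
  intro L hL
  obtain ⟨L', hL', rfl⟩ := List.mem_map.1 hL
  refine ⟨by simp [(h.part L' (List.mem_of_mem_tail hL')).1], ?_⟩
  intro A hA
  obtain ⟨A', -, rfl⟩ := List.mem_map.1 hA
  exact WF_tab _ _ _

theorem WFL.PBl {T : LM} (h : WFL (k + 1) s T) (q D : ℕ) (Ms : List Mt) (L : Mt) (b : ℕ) :
    WFL k s (PBl q T D Ms L b) := (h.evalAt q D Ms).ext _ _

theorem WFL.PHl {T : LM} (h : WFL (k + 1) s T) (q D : ℕ) (Ms : List Mt) (L : Mt) (b : ℕ) :
    WFL k s (PHl q T D Ms L b) := ((h.PBl q D Ms L b).copies D).ext _ _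

end WF

/-! ### the search ends in a stuck state -/

theorem iterate_fixed {α : Type} (f : α → α) (φ : α → ℕ) (K : ℕ) (hφ : ∀ x, φ x ≤ K)
    (hf : ∀ x, f x = x ∨ φ x < φ (f x)) (x : α) : f (f^[K + 1] x) = f^[K + 1] x := by
  have key : ∀ n, f (f^[n] x) = f^[n] x ∨ n ≤ φ (f^[n] x) := by
    intro n
    induction n with
    | zero => right; exact Nat.zero_le _
    | succ n ih =>
      rcases ih with h | h
      · left
        rw [Function.iterate_succ_apply', h, h]
      · rcases hf (f^[n] x) with h' | h'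
        · left
          rw [Function.iterate_succ_apply', h', h']
        · right
          rw [Function.iterate_succ_apply']
          omega
  rcases key (K + 1) with h | h
  · exact h
  · have := hφ (f^[K + 1] x)
    omega

theorem lsStep_eq_or (q : ℕ) (R : LM → ℕ) (T : LM) (D B : ℕ) (st : St) :
    lsStep q R T D B st = st ∨ pot q R T D B st < pot q R T D B (lsStep q R T D B st) := by
  unfold lsStep
  cases h : (cands q D B st).find? fun st' => decide (pot q R T D B st < pot q R T D B st') with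
  | none => left; rfl
  | some st' =>
    right
    have := List.find?_some h
    simpa using this

theorem le_of_lsStep_eq {q : ℕ} {R : LM → ℕ} {T : LM} {D B : ℕ} {st : St}
    (h : lsStep q R T D B st = st) : ∀ st' ∈ cands q D B st, pot q R T D B st' ≤ pot q R T D B st := by
  intro st' hst'
  by_contra hlt
  push Not at hlt
  unfold lsStep at h
  cases hf : (cands q D B st).find? fun st' => decide (pot q R T D B st < pot q R T D B st') with
  | none =>
    rw [List.find?_eq_none] at hf
    exact hf st' hst' (by simpa using hlt)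
  | some st'' =>
    rw [hf] at h
    have h2 := List.find?_some hf
    simp only [Option.getD_some] at h
    rw [h] at h2
    simp at h2

theorem length_of_mem_cands {q D B : ℕ} {st st' : St} (h : st' ∈ cands q D B st) :
    st'.1.length = st.1.length := by
  unfold cands at h
  rcases List.mem_append.1 h with h | h
  · simp only [List.mem_flatMap, List.mem_map, List.mem_range] at h
    obtain ⟨l, -, a, -, a', -, t, -, rfl⟩ := h
    simp [updMs]
  · simp only [List.mem_flatMap, List.mem_map, List.mem_range] at h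
    obtain ⟨l, -, a, -, t, -, rfl⟩ := h
    rfl

theorem length_lsStep (q : ℕ) (R : LM → ℕ) (T : LM) (D B : ℕ) (st : St) :
    (lsStep q R T D B st).1.length = st.1.length := by
  unfold lsStep
  cases h : (cands q D B st).find? fun st' => decide (pot q R T D B st < pot q R T D B st') with
  | none => rfl
  | some st' => exact length_of_mem_cands (List.mem_of_find?_eq_some h)

theorem length_lsRun (q : ℕ) (R : LM → ℕ) (T : LM) (D : ℕ) :
    (lsRun q R T D).1.length = (T.P.headD []).length := by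
  unfold lsRun
  generalize potMax T.N D + 1 = n
  induction n with
  | zero => simp [st0]
  | succ n ih => rw [Function.iterate_succ_apply', length_lsStep, ih]

theorem mem_cands_M {q D B : ℕ} {st : St} {l a a' t : ℕ} (hl : l < st.1.length) (ha : a < D) (ha' : a' < D)
    (ht : t < q) : (updMs D st.1 l a a' t, st.2) ∈ cands q D B st := by
  unfold cands
  refine List.mem_append_left _ ?_
  simp only [List.mem_flatMap, List.mem_map, List.mem_range]
  exact ⟨l, hl, a, ha, a', ha', t, ht, rfl⟩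

theorem mem_cands_L {q D B : ℕ} {st : St} {i a t : ℕ} (hi : i < B) (ha : a < D)
    (ht : t < q) : (st.1, updLs D B st.2 i a t) ∈ cands q D B st := by
  unfold cands
  refine List.mem_append_right _ ?_
  simp only [List.mem_flatMap, List.mem_map, List.mem_range]
  exact ⟨i, hi, a, ha, t, ht, rfl⟩

section Moves

variable {F : Type} [Field F] {s : ℕ}

theorem mM_updMs (D : ℕ) (Ms : List Mt) (hs : Ms.length = s) (l : Fin s) (a a' : Fin D) (t : ℕ) :
    mM F s D (updMs D Ms l a a' t) = updM (mM F s D Ms) l a a' (t : F) := by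
  funext l'
  ext x y
  have h1 : (updMs D Ms l a a' t).getD (l' : ℕ) [] = tab D D fun i j =>
      if (l' : ℕ) = (l : ℕ) ∧ i = (a : ℕ) ∧ j = (a' : ℕ) then t else ent (Ms.getD (l' : ℕ) []) i j := by
    unfold updMs
    rw [List.getD_eq_getElem?_getD, List.getElem?_map, List.getElem?_range (by rw [hs]; exact l'.2)]
    rfl
  simp only [mM, updM, Matrix.of_apply]
  rw [h1, ent_tab, if_pos ⟨x.2, y.2⟩]
  simp only [Fin.ext_iff]
  split_ifs <;> rfl

theorem mL_updLs (B D : ℕ) (L : Mt) (i : ℕ) (hi : i < B) (a : Fin D) (t : ℕ) :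
    mL F B D (updLs D B L i a t) = updL (mL F B D L) i a (t : F) := by
  funext i' x
  simp only [mL, updL]
  by_cases h : i' < B
  · simp only [h, if_true]
    unfold updLs
    rw [ent_tab, if_pos ⟨h, x.2⟩]
    simp only [Fin.ext_iff]
    split_ifs <;> rfl
  · have : ¬ (i' = i ∧ x = a) := by
      rintro ⟨rfl, -⟩
      exact h hi
    simp [h, this]

end Moves

/-! ### the rank of a matrix and field extensions -/

theorem rank_map_algebraMap' {K L : Type*} [Field K] [Field L] [Algebra K L] {m n : Type*}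
    [Finite m] [Fintype n] (M : Matrix m n K) : (M.map (algebraMap K L)).rank = M.rank := by
  classical
  have := Fintype.ofFinite m
  rw [Matrix.rank_eq_finrank_span_row, Matrix.rank_eq_finrank_span_row]
  obtain ⟨b, hb1, hb2, hb3⟩ := exists_linearIndependent K (Set.range M.row)
  have hbf : Finite b := Set.Finite.subset (Set.finite_range M.row) hb1
  have := Fintype.ofFinite b
  have h1 : Module.finrank K (Submodule.span K (Set.range M.row)) = Fintype.card b := by
    rw [← hb2]
    have := finrank_span_eq_card hb3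
    rwa [Subtype.range_coe] at this
  have hli : LinearIndependent L (fun i : b => algebraMap K L ∘ (i : n → K)) :=
    linearIndependent_algebraMap_comp_iff.mpr hb3
  have h2 : Submodule.span L (Set.range (M.map (algebraMap K L)).row)
      = Submodule.span L (Set.range fun i : b => algebraMap K L ∘ (i : n → K)) := by
    refine le_antisymm ?_ ?_
    · rw [Submodule.span_le]
      rintro _ ⟨i, rfl⟩
      have h3 : M.row i ∈ Submodule.span K (Set.range fun i : b => (i : n → K)) := by
        rw [Subtype.range_coe, hb2]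
        exact Submodule.subset_span ⟨i, rfl⟩
      rw [Submodule.mem_span_range_iff_exists_fun] at h3
      obtain ⟨c, hc⟩ := h3
      rw [SetLike.mem_coe, Submodule.mem_span_range_iff_exists_fun]
      refine ⟨fun j => algebraMap K L (c j), ?_⟩
      funext j
      have h4 := congrFun hc j
      simp only [Finset.sum_apply, Pi.smul_apply, smul_eq_mul] at h4
      simp only [Finset.sum_apply, Pi.smul_apply, smul_eq_mul, Function.comp_apply, Matrix.row,
        Matrix.map_apply]
      rw [Matrix.row] at h4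
      rw [← h4, map_sum]
      simp only [map_mul]
    · rw [Submodule.span_le]
      rintro _ ⟨⟨i, hi⟩, rfl⟩
      obtain ⟨j, rfl⟩ := hb1 hi
      exact Submodule.subset_span ⟨j, rfl⟩
  rw [h1, h2, finrank_span_eq_card hli]

/-! ### the main theorem -/

section Main

variable {F : Type} [Field F] [Infinite F] (q : ℕ) [Fact q.Prime] [CharP F q]

/-- the level step: the program computes the stable rank of the matrix with `k + 1` parts from the stable
ranks of matrices with `k` parts -/
theorem rankLevel_eq {k s : ℕ} (P : Fin (k + 1) → ℕ) (hP : ∀ i, 1 < P i)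
    (hco : ∀ i j, i ≠ j → (P i).Coprime (P j)) (T : LM) (hT : WFL (k + 1) s T) (R : LM → ℕ) {D : ℕ}
    (hD : D = dim (P 0) T.N)
    (hR1 : ∀ T' : LM, WFL k s T' → T'.N = T.N * D → R T' = rho (fun i : Fin k => P i.succ) (toPen F k s T'))
    (hR2 : ∀ T' : LM, WFL k s T' → T'.N = D * (T.N * D) →
      R T' = rho (fun i : Fin k => P i.succ) (toPen F k s T'))
    (hq : potMax T.N D + 2 < q) : rankLevel q R (P 0) T = rho P (toPen F (k + 1) s T) := by
  have hP0 : ∀ i, 0 < P i := fun i => by have := hP i; omega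
  have hP0' : ∀ i : Fin k, 0 < P i.succ := fun i => hP0 _
  have hNs : (T.P.headD []).length = s := by
    have h1 := hT.len
    cases h : T.P with
    | nil => rw [h] at h1; simp at h1
    | cons L Ls =>
      exact (hT.part L (by rw [h]; exact List.mem_cons_self)).1
  -- the potential
  have hpot : ∀ st : St, pot q R T D (T.N ^ 2) st =
      Phi (fun i : Fin k => P i.succ) (toPen F (k + 1) s T) (mM F s D st.1) (mL F (T.N ^ 2) D st.2)
        (T.N ^ 2) := by
    intro st
    unfold pot Phi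
    rw [list_sum_map_range]
    refine Finset.sum_congr rfl fun b hb => ?_
    have hb' : b ≤ T.N ^ 2 := by
      have := Finset.mem_range.1 hb
      omega
    rw [hR1 _ (hT.PBl q D st.1 st.2 b) rfl, hR2 _ (hT.PHl q D st.1 st.2 b) rfl,
      (rep_PBl (F := F) q hT D st.1 st.2 hb').rho_eq, (rep_PHl (F := F) q hT D st.1 st.2 hb').rho_eq]
  have hmax : ∀ st : St, pot q R T D (T.N ^ 2) st ≤ potMax T.N D := by
    intro st
    unfold pot potMax
    rw [list_sum_map_range, ← Finset.card_range (T.N ^ 2 + 1), ← smul_eq_mul (Finset.card _),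
      Finset.card_range]
    have : ∀ b ∈ Finset.range (T.N ^ 2 + 1), R (PBl q T D st.1 st.2 b) + R (PHl q T D st.1 st.2 b) ≤
        T.N * D + D * (T.N * D) := by
      intro b _
      rw [hR1 _ (hT.PBl q D st.1 st.2 b) rfl, hR2 _ (hT.PHl q D st.1 st.2 b) rfl]
      have h1 := rho_le_card_m hP0' (toPen F k s (PBl q T D st.1 st.2 b))
      have h2 := rho_le_card_m hP0' (toPen F k s (PHl q T D st.1 st.2 b))
      rw [Fintype.card_fin] at h1 h2
      exact add_le_add h1 h2
    have h3 := Finset.sum_le_card_nsmul _ _ _ this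
    rwa [Finset.card_range] at h3
  -- the final state
  set st := lsRun q R T D with hst
  have hfix : lsStep q R T D (T.N ^ 2) st = st :=
    iterate_fixed _ (pot q R T D (T.N ^ 2)) _ hmax (lsStep_eq_or q R T D (T.N ^ 2)) _
  have hlen : st.1.length = s := by rw [hst, length_lsRun, hNs]
  have hstuck : IsStuck q (fun i : Fin k => P i.succ) (toPen F (k + 1) s T) (mM F s D st.1)
      (mL F (T.N ^ 2) D st.2) (Fintype.card (Fin T.N) ^ 2) := by
    rw [Fintype.card_fin]
    constructor
    · intro j a a' v hv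
      have h1 := le_of_lsStep_eq hfix _
        (mem_cands_M (l := j) (a := a) (a' := a') (by rw [hlen]; exact j.2) a.2 a'.2 hv)
      rw [hpot, hpot, mM_updMs D st.1 hlen] at h1
      exact h1
    · intro i hi a v hv
      have h1 := le_of_lsStep_eq hfix _ (mem_cands_L (i := i) (a := a) hi a.2 hv)
      rw [hpot, hpot, mL_updLs _ _ _ _ hi] at h1
      exact h1
  have hmain := rho_eq_of_isStuck q hP0 hco (toPen F (k + 1) s T) (D := D)
    (e := Nat.log (P 0) (T.N ^ 3) + 1) hD (by
      rw [Fintype.card_fin, hD]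
      exact Nat.lt_pow_succ_log_self (hP 0) _) (mM F s D st.1) (mL F (T.N ^ 2) D st.2)
    (by
      rw [Fintype.card_fin]
      refine lt_of_eq_of_lt ?_ hq
      unfold potMax
      ring) hstuck
  rw [hmain]
  unfold rankLevel
  rw [← hD, ← hst, hR1 _ (hT.evalAt q D st.1) rfl, (rep_evalAt (F := F) q hT D st.1).rho_eq]

/-- **the rank routine computes the stable rank** -/
theorem RANK_eq (ps : List ℕ) (hps : ps.Pairwise Nat.Coprime) (h1 : ∀ p ∈ ps, 1 < p) (s : ℕ) (T : LM)
    (hT : WFL ps.length s T) (hq : bnd ps T.N ≤ q) :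
    RANK q ps T = rho (fun i => ps.get i) (toPen F ps.length s T) := by
  induction ps generalizing T with
  | nil =>
    rw [rho_zero]
    change rk q T.N' T.A0 = _
    letI : Algebra (ZMod q) F := ZMod.algebra F q
    rw [rk_eq q T.N T.N' T.A0 hT.A0, ← rank_map_algebraMap' (L := F) (toM q T.N T.N' T.A0)]
    congr 1
    ext i j
    simp [toM, toPen]
  | cons p ps ih =>
    have hps' := List.pairwise_cons.1 hps
    have ih' := ih hps'.2 (fun x hx => h1 x (List.mem_cons_of_mem _ hx))
    unfold bnd at hq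
    refine rankLevel_eq (F := F) q (fun i => (p :: ps).get i) ?_ ?_ T hT (RANK q ps) (D := dim p T.N) rfl
      ?_ ?_ (by omega)
    · intro i
      exact h1 _ (List.get_mem _ _)
    · intro i j hij
      rcases lt_or_gt_of_ne hij with h | h
      · exact List.pairwise_iff_get.1 hps i j h
      · exact (List.pairwise_iff_get.1 hps j i h).symm
    · intro T' hT' hN
      exact ih' T' hT' (by rw [hN]; omega)
    · intro T' hT' hN
      exact ih' T' hT' (by rw [hN]; omega)

end Main

end GAP
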